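import Pool.Agent.Lib.SDF2.Defs

/-!
Row A1: the test function.
-/

set_option autoImplicit false

namespace Pool.Agent.Lib.SDF2

open Finset
open Pool.Agent.Lib.MP_678664_lc_h67 (Cons moeb moeb_insert sum_moeb)

variable {κ S : Type*} [Fintype κ] [DecidableEq κ] [Fintype S]

theorem rho_nonneg (ok : κ → κ → S → S → Prop) (R : ℕ → ℝ) (hR : ∀ i, 0 ≤ R i) (I : Finset κ)
    (z : κ → S) : 0 ≤ rho ok R I z := by
  unfold rho
  split_ifs
  · exact hR _
  · exact le_rfl

/-- `rho` depends only on the coordinates in `I`. -/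
theorem rho_dep (ok : κ → κ → S → S → Prop) (R : ℕ → ℝ) (I : Finset κ) :
    DepOn I (rho ok R I) := by
  intro z z' h
  have key : ∀ z z' : κ → S, (∀ v ∈ I, z v = z' v) → Cons ok I z → Cons ok I z' := by
    intro z z' h hc v hv w hw hvw
    rw [← h v hv, ← h w hw]
    exact hc v hv w hw hvw
  unfold rho
  have h2 : Cons ok I z ↔ Cons ok I z' := ⟨key z z' h, key z' z fun v hv => (h v hv).symm⟩
  by_cases hc : Cons ok I z
  · rw [if_pos hc, if_pos (h2.1 hc)]
  · rw [if_neg hc, if_neg fun h => hc (h2.2 h)]

omit [Fintype κ] [Fintype S] in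
private theorem rho_update_of_notMem (ok : κ → κ → S → S → Prop) (R : ℕ → ℝ) (I : Finset κ) (g : κ)
    (hg : g ∉ I) (z : κ → S) (s : S) : rho ok R I (Function.update z g s) = rho ok R I z := by
  unfold rho
  have : Cons ok I (Function.update z g s) ↔ Cons ok I z := by
    unfold Cons
    constructor
    · intro h v hv w hw hvw
      have := h v hv w hw hvw
      rwa [Function.update_of_ne (ne_of_mem_of_not_mem hv hg),
        Function.update_of_ne (ne_of_mem_of_not_mem hw hg)] at this
    · intro h v hv w hw hvw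
      rw [Function.update_of_ne (ne_of_mem_of_not_mem hv hg),
        Function.update_of_ne (ne_of_mem_of_not_mem hw hg)]
      exact h v hv w hw hvw
  by_cases hc : Cons ok I z
  · rw [if_pos hc, if_pos (this.2 hc)]
  · rw [if_neg hc, if_neg (fun h => hc (this.1 h))]

theorem sum_rho_update (ok : κ → κ → S → S → Prop)
    (hsymm : ∀ v w s t, ok v w s t → ok w v t s) (R : ℕ → ℝ) (u : ℕ) (hext : Ext ok R u)
    (I : Finset κ) (g : κ) (hg : g ∉ I) (hI : I.card + 1 < u) (z : κ → S) :
    ∑ s, rho ok R (insert g I) (Function.update z g s) = Fintype.card S * rho ok R I z := by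
  classical
  have hcons : ∀ s, Cons ok (insert g I) (Function.update z g s) ↔
      (Cons ok I z ∧ ∀ w ∈ I, ok g w s (z w)) := by
    intro s
    constructor
    · intro h
      refine ⟨fun v hv w hw hvw => ?_, fun w hw => ?_⟩
      · have := h v (Finset.mem_insert_of_mem hv) w (Finset.mem_insert_of_mem hw) hvw
        rwa [Function.update_of_ne (ne_of_mem_of_not_mem hv hg),
          Function.update_of_ne (ne_of_mem_of_not_mem hw hg)] at this
      · have hgw : g ≠ w := (ne_of_mem_of_not_mem hw hg).symm
        have := h g (Finset.mem_insert_self _ _) w (Finset.mem_insert_of_mem hw) hgw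
        rwa [Function.update_self, Function.update_of_ne hgw.symm] at this
    · rintro ⟨h1, h2⟩ v hv w hw hvw
      rcases Finset.mem_insert.1 hv with rfl | hv'
      · have hw' := (Finset.mem_insert.1 hw).resolve_left (Ne.symm hvw)
        rw [Function.update_self, Function.update_of_ne (Ne.symm hvw)]
        exact h2 w hw'
      · have hvg : v ≠ g := ne_of_mem_of_not_mem hv' hg
        rcases Finset.mem_insert.1 hw with rfl | hw'
        · rw [Function.update_self, Function.update_of_ne hvg]
          exact hsymm _ _ _ _ (h2 v hv')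
        · rw [Function.update_of_ne hvg, Function.update_of_ne (ne_of_mem_of_not_mem hw' hg)]
          exact h1 v hv' w hw' hvw
  have hci : (insert g I).card = I.card + 1 := Finset.card_insert_of_notMem hg
  unfold rho
  by_cases hc : Cons ok I z
  · simp only [hcons, hc, true_and, if_true]
    rw [← Finset.sum_filter, Finset.sum_const, nsmul_eq_mul, hci, ← hext I g hg hI z hc]
    congr 2
  · simp only [hcons, hc, false_and, if_false, Finset.sum_const_zero, mul_zero]

private theorem pure_mean (ok : κ → κ → S → S → Prop)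
    (hsymm : ∀ v w s t, ok v w s t → ok w v t s) (R : ℕ → ℝ) (u : ℕ) (hext : Ext ok R u)
    (J : Finset κ) (g : κ) (hg : g ∈ J) (z : κ → S) :
    ∑ s, pureComp ok R u J (Function.update z g s) = 0 := by
  unfold pureComp
  by_cases hJ : J.card < u
  · simp only [hJ, if_true]
    obtain ⟨J', hgJ', rfl⟩ : ∃ J', g ∉ J' ∧ insert g J' = J :=
      ⟨J.erase g, Finset.notMem_erase g J, Finset.insert_erase hg⟩
    rw [Finset.card_insert_of_notMem hgJ'] at hJ
    have h1 : ∀ s, moeb (fun I => rho ok R I (Function.update z g s)) (insert g J')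
        = - moeb (fun I => rho ok R I z) J'
          + moeb (fun I => rho ok R (insert g I) (Function.update z g s)) J' := by
      intro s
      rw [moeb_insert _ _ _ hgJ']
      congr 2
      unfold moeb
      refine Finset.sum_congr rfl fun K hK => ?_
      show (-1 : ℝ) ^ (J'.card + K.card) * rho ok R K (Function.update z g s)
        = (-1 : ℝ) ^ (J'.card + K.card) * rho ok R K z
      rw [rho_update_of_notMem]
      exact fun h => hgJ' (Finset.mem_powerset.1 hK h)
    simp only [h1, Finset.sum_add_distrib, Finset.sum_const, nsmul_eq_mul, Finset.card_univ]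
    have h2 : ∑ s, moeb (fun I => rho ok R (insert g I) (Function.update z g s)) J'
        = Fintype.card S * moeb (fun I => rho ok R I z) J' := by
      unfold moeb
      rw [Finset.sum_comm, Finset.mul_sum]
      refine Finset.sum_congr rfl fun K hK => ?_
      rw [← Finset.mul_sum, sum_rho_update ok hsymm R u hext K g
        (fun h => hgJ' (Finset.mem_powerset.1 hK h))
        (lt_of_le_of_lt (Nat.succ_le_succ (Finset.card_le_card (Finset.mem_powerset.1 hK))) hJ) z]
      ring
    rw [h2]; ring
  · simp [hJ]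

omit [Fintype κ] [Fintype S] in
private theorem sum_pure (ok : κ → κ → S → S → Prop) (R : ℕ → ℝ) (u : ℕ) (I : Finset κ) (hI : I.card < u)
    (z : κ → S) : ∑ J ∈ I.powerset, pureComp ok R u J z = rho ok R I z := by
  rw [← sum_moeb I (fun I => rho ok R I z)]
  refine Finset.sum_congr rfl fun J hJ => ?_
  unfold pureComp
  rw [if_pos (lt_of_le_of_lt (Finset.card_le_card (Finset.mem_powerset.1 hJ)) hI)]

/-- A function that ignores a coordinate of `J` is orthogonal to the component of `J`. -/
private theorem orth (ok : κ → κ → S → S → Prop) [Nonempty S]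
    (hsymm : ∀ v w s t, ok v w s t → ok w v t s) (R : ℕ → ℝ) (u : ℕ) (hext : Ext ok R u)
    (J : Finset κ) (g : κ) (hg : g ∈ J) (F : (κ → S) → ℝ)
    (hF : ∀ z s, F (Function.update z g s) = F z) :
    ∑ z, F z * pureComp ok R u J z = 0 := by
  have h1 := Pool.Agent.Lib.MP_678664_lc_h67.resample (fun z : κ → S => F z * pureComp ok R u J z) g
  have h2 : ∑ z : κ → S, ∑ s : S, F (Function.update z g s) * pureComp ok R u J (Function.update z g s)
      = 0 := by
    refine Finset.sum_eq_zero fun z _ => ?_
    simp only [hF]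
    rw [← Finset.mul_sum, pure_mean ok hsymm R u hext J g hg z, mul_zero]
  rw [h2] at h1
  have h3 : (Fintype.card S : ℝ) ≠ 0 := by
    exact_mod_cast Fintype.card_ne_zero
  rcases mul_eq_zero.1 h1.symm with h4 | h4
  · exact absurd h4 h3
  · exact h4

theorem sum_test [Nonempty S] (ok : κ → κ → S → S → Prop)
    (hsymm : ∀ v w s t, ok v w s t → ok w v t s) (R : ℕ → ℝ) (u : ℕ) (hext : Ext ok R u)
    (hu : 0 < u) (h0 : R 0 = 1) :
    ∑ z, ∑ J, pureComp ok R u J z = Fintype.card (κ → S) := by
  rw [Finset.sum_comm, Finset.sum_eq_single (∅ : Finset κ)]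
  · have : ∀ z, pureComp ok R u (∅ : Finset κ) z = 1 := by
      intro z
      simp [pureComp, moeb, rho, Cons, hu, h0]
    simp only [this, Finset.sum_const, nsmul_eq_mul, mul_one, Finset.card_univ]
  · intro J _ hJ
    obtain ⟨g, hg⟩ := Finset.nonempty_iff_ne_empty.2 hJ
    have := orth ok hsymm R u hext J g hg (fun _ => 1) (fun _ _ => rfl)
    simpa using this
  · intro h; exact absurd (Finset.mem_univ _) h

theorem sum_test_mul [Nonempty S] (ok : κ → κ → S → S → Prop)
    (hsymm : ∀ v w s t, ok v w s t → ok w v t s) (R : ℕ → ℝ) (u : ℕ) (hext : Ext ok R u)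
    (T : Finset κ) (hT : T.card < u) (F : (κ → S) → ℝ) (hF : DepOn T F) :
    ∑ z, F z * ∑ J, pureComp ok R u J z = ∑ z, F z * rho ok R T z := by
  have h1 : ∑ z : κ → S, F z * ∑ J, pureComp ok R u J z
      = ∑ J, ∑ z : κ → S, F z * pureComp ok R u J z := by
    rw [Finset.sum_comm]
    exact Finset.sum_congr rfl fun z _ => Finset.mul_sum _ _ _
  have h2 : ∑ J, ∑ z : κ → S, F z * pureComp ok R u J z
      = ∑ J ∈ T.powerset, ∑ z : κ → S, F z * pureComp ok R u J z := by
    symm
    refine Finset.sum_subset (Finset.subset_univ _) fun J _ hJ => ?_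
    rw [Finset.mem_powerset, Finset.not_subset] at hJ
    obtain ⟨g, hg, hg'⟩ := hJ
    exact orth ok hsymm R u hext J g hg F fun z s =>
      hF _ _ fun v hv => Function.update_of_ne (ne_of_mem_of_not_mem hv hg') _ _
  rw [h1, h2, Finset.sum_comm]
  refine Finset.sum_congr rfl fun z _ => ?_
  rw [← Finset.mul_sum, sum_pure ok R u T hT]

theorem exists_bound (ok : κ → κ → S → S → Prop) (R : ℕ → ℝ) (u : ℕ) :
    ∃ B : ℝ, ∀ z, |∑ J, pureComp ok R u J z| ≤ B := by
  classical
  refine ⟨∑ J : Finset κ, ∑ z : κ → S, |pureComp ok R u J z|, fun z => ?_⟩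
  calc |∑ J, pureComp ok R u J z| ≤ ∑ J, |pureComp ok R u J z| :=
        Finset.abs_sum_le_sum_abs _ _
    _ ≤ ∑ J : Finset κ, ∑ z : κ → S, |pureComp ok R u J z| :=
        Finset.sum_le_sum fun J _ => Finset.single_le_sum
          (f := fun z => |pureComp ok R u J z|) (fun _ _ => abs_nonneg _) (Finset.mem_univ z)

/-- Marginals (`sum_test_mul` for `D` and for `I`). -/
theorem sum_marg [Nonempty S] (ok : κ → κ → S → S → Prop)
    (hsymm : ∀ v w s t, ok v w s t → ok w v t s) (R : ℕ → ℝ) (u : ℕ) (hext : Ext ok R u)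
    (I D : Finset κ) (hID : I ⊆ D) (hD : D.card < u) (F : (κ → S) → ℝ) (hF : DepOn I F) :
    ∑ z, rho ok R D z * F z = ∑ z, rho ok R I z * F z := by
  have h1 := sum_test_mul ok hsymm R u hext D hD F fun z z' h => hF z z' fun v hv => h v (hID hv)
  have h2 := sum_test_mul ok hsymm R u hext I ((Finset.card_le_card hID).trans_lt hD) F hF
  rw [h1] at h2
  simpa only [mul_comm] using h2

end Pool.Agent.Lib.SDF2
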