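import Pool.Agent.Lib.SDF2.A1

/-!
Row A2: the decomposition into pure functions.
-/

set_option autoImplicit false

namespace Pool.Agent.Lib.SDF2

open Finset
open Pool.Agent.Lib.MP_678664_lc_h67 (Cons moeb)
open Pool.Agent.Lib.SDF (degLE Junta)

/-- Orthogonal projection for a weight `w ≥ 0`.  Map `(X → ℝ)` linearly to `EuclideanSpace ℝ X` by
`f ↦ fun x => √(w x) * f x`, and use `Submodule.exists_add_mem_mem_orthogonal` (or
`Submodule.exists_norm_eq_iInf_of_complete_subspace`) for the image of `K`. -/
theorem exists_proj {X : Type*} [Fintype X] (w : X → ℝ) (hw : ∀ x, 0 ≤ w x)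
    (K : Submodule ℝ (X → ℝ)) (f : X → ℝ) :
    ∃ k ∈ K, ∀ h ∈ K, ∑ x, w x * ((f x - k x) * h x) = 0 := by
  let T : (X → ℝ) →ₗ[ℝ] EuclideanSpace ℝ X :=
    { toFun := fun g => WithLp.toLp 2 fun x => Real.sqrt (w x) * g x
      map_add' := by
        intro a b
        ext x
        simp [mul_add]
      map_smul' := by
        intro c a
        ext x
        simp only [PiLp.smul_apply, RingHom.id_apply, smul_eq_mul, Pi.smul_apply]
        ring }
  have hT : ∀ g x, T g x = Real.sqrt (w x) * g x := fun g x => rfl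
  obtain ⟨y, hy, z, hz, hyz⟩ := (K.map T).exists_add_mem_mem_orthogonal (T f)
  obtain ⟨k, hk, rfl⟩ := hy
  refine ⟨k, hk, fun h hh => ?_⟩
  have h1 := (Submodule.mem_orthogonal _ _).1 hz (T h) (Submodule.mem_map_of_mem hh)
  rw [PiLp.inner_apply] at h1
  rw [← h1]
  refine Finset.sum_congr rfl fun x _ => ?_
  have h2 : z x = Real.sqrt (w x) * (f x - k x) := by
    have h3 := congrArg (fun v : EuclideanSpace ℝ X => v x) hyz
    simp only [PiLp.add_apply, hT] at h3
    linarith
  rw [hT, h2]
  simp only [RCLike.inner_apply, conj_trivial]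
  have h4 := Real.mul_self_sqrt (hw x)
  calc w x * ((f x - k x) * h x) =
        (Real.sqrt (w x) * Real.sqrt (w x)) * ((f x - k x) * h x) := by rw [h4]
    _ = _ := by ring

variable {κ S : Type*} [Fintype κ] [DecidableEq κ] [Fintype S]

private theorem pure_zero (ok : κ → κ → S → S → Prop) (R : ℕ → ℝ) (I : Finset κ) :
    IsPure ok R I 0 :=
  ⟨fun _ _ _ => rfl, fun _ _ _ _ => by simp⟩

private theorem pure_add (ok : κ → κ → S → S → Prop) (R : ℕ → ℝ) (I : Finset κ)
    {f g : (κ → S) → ℝ} (hf : IsPure ok R I f) (hg : IsPure ok R I g) :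
    IsPure ok R I (f + g) := by
  refine ⟨fun z z' h => ?_, fun I' hI' h hh => ?_⟩
  · rw [Pi.add_apply, Pi.add_apply, hf.1 z z' h, hg.1 z z' h]
  · have h1 := hf.2 I' hI' h hh
    have h2 := hg.2 I' hI' h hh
    have e : ∀ z, rho ok R I z * ((f + g) z * h z) =
        rho ok R I z * (f z * h z) + rho ok R I z * (g z * h z) := by
      intro z
      rw [Pi.add_apply]
      ring
    rw [Finset.sum_congr rfl fun z _ => e z, Finset.sum_add_distrib, h1, h2, add_zero]

private theorem pure_smul (ok : κ → κ → S → S → Prop) (R : ℕ → ℝ) (I : Finset κ) (c : ℝ)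
    {f : (κ → S) → ℝ} (hf : IsPure ok R I f) : IsPure ok R I (c • f) := by
  refine ⟨fun z z' h => ?_, fun I' hI' h hh => ?_⟩
  · rw [Pi.smul_apply, Pi.smul_apply, hf.1 z z' h]
  · have h1 := hf.2 I' hI' h hh
    have e : ∀ z, rho ok R I z * ((c • f) z * h z) = c * (rho ok R I z * (f z * h z)) := by
      intro z
      rw [Pi.smul_apply, smul_eq_mul]
      ring
    rw [Finset.sum_congr rfl fun z _ => e z, ← Finset.mul_sum, h1, mul_zero]

/-- The functions which are sums of pure functions of at most `t` coordinates. -/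
private def Dec (ok : κ → κ → S → S → Prop) (R : ℕ → ℝ) (t : ℕ) :
    Submodule ℝ ((κ → S) → ℝ) where
  carrier := {g | ∃ G : Finset κ → (κ → S) → ℝ, (∀ I, IsPure ok R I (G I)) ∧
      (∀ I : Finset κ, t < I.card → G I = 0) ∧ ∀ z, g z = ∑ I, G I z}
  zero_mem' := ⟨fun _ => 0, fun I => pure_zero ok R I, fun _ _ => rfl, fun z => by simp⟩
  add_mem' := by
    rintro f g ⟨F, hF1, hF2, hF3⟩ ⟨G, hG1, hG2, hG3⟩
    refine ⟨fun I => F I + G I, fun I => pure_add ok R I (hF1 I) (hG1 I), fun I hI => ?_,
      fun z => ?_⟩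
    · simp only
      rw [hF2 I hI, hG2 I hI, add_zero]
    · rw [Pi.add_apply, hF3 z, hG3 z, ← Finset.sum_add_distrib]
      rfl
  smul_mem' := by
    rintro c f ⟨F, hF1, hF2, hF3⟩
    refine ⟨fun I => c • F I, fun I => pure_smul ok R I c (hF1 I), fun I hI => ?_, fun z => ?_⟩
    · simp only
      rw [hF2 I hI, smul_zero]
    · rw [Pi.smul_apply, hF3 z, smul_eq_mul, Finset.mul_sum]
      rfl

/-- The functions of the coordinates in `I`. -/
private def DepSub (I : Finset κ) : Submodule ℝ ((κ → S) → ℝ) where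
  carrier := {g | DepOn I g}
  zero_mem' := fun _ _ _ => rfl
  add_mem' := by
    intro f g hf hg z z' h
    rw [Pi.add_apply, Pi.add_apply, hf z z' h, hg z z' h]
  smul_mem' := by
    intro c f hf z z' h
    rw [Pi.smul_apply, Pi.smul_apply, hf z z' h]

private theorem dec_of_dep (ok : κ → κ → S → S → Prop) (R : ℕ → ℝ) (hR : ∀ i, 0 ≤ R i) (t : ℕ) :
    ∀ (n : ℕ) (I : Finset κ), I.card = n → n ≤ t → ∀ f : (κ → S) → ℝ, DepOn I f →
      f ∈ Dec ok R t := by
  intro n
  induction n using Nat.strong_induction_on with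
  | _ n ih =>
    intro I hI hn f hf
    obtain ⟨K, hK⟩ : ∃ K : Submodule ℝ ((κ → S) → ℝ),
        K = Submodule.span ℝ {h | ∃ I' : Finset κ, I' ⊂ I ∧ DepOn I' h} := ⟨_, rfl⟩
    obtain ⟨k, hk, hk2⟩ := exists_proj (rho ok R I) (rho_nonneg ok R hR I) K f
    have hkdec : k ∈ Dec ok R t := by
      have h1 : K ≤ Dec ok R t := by
        rw [hK, Submodule.span_le]
        rintro h ⟨I', hI', hh⟩
        have h2 := Finset.card_lt_card hI'
        exact ih I'.card (by omega) I' rfl (by omega) h hh
      exact h1 hk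
    have hkdep : DepOn I k := by
      have h1 : K ≤ DepSub I := by
        rw [hK, Submodule.span_le]
        rintro h ⟨I', hI', hh⟩
        exact fun z z' hz => hh z z' fun v hv => hz v (hI'.1 hv)
      exact h1 hk
    have hpure : IsPure ok R I (f - k) := by
      refine ⟨fun z z' h => ?_, fun I' hI' h hh => ?_⟩
      · rw [Pi.sub_apply, Pi.sub_apply, hf z z' h, hkdep z z' h]
      · have h3 : h ∈ K := by
          rw [hK]
          exact Submodule.subset_span ⟨I', hI', hh⟩
        exact hk2 h h3
    have hdec : f - k ∈ Dec ok R t := by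
      refine ⟨fun J => if J = I then f - k else 0, fun J => ?_, fun J hJ => ?_, fun z => ?_⟩
      · by_cases h : J = I
        · simp only [h, if_true]
          exact hpure
        · simp only [h, if_false]
          exact pure_zero ok R J
      · have h : J ≠ I := fun h => by
          rw [h] at hJ
          omega
        simp only [h, if_false]
      · rw [Finset.sum_eq_single I]
        · simp
        · intro J _ hJ
          simp [hJ]
        · intro h
          exact absurd (Finset.mem_univ I) h
    have h4 := (Dec ok R t).add_mem hdec hkdec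
    rwa [sub_add_cancel] at h4

/-- Strong induction on `I.card`: `K` is the span of the functions `h` with `DepOn I' h`,
`I' ⊂ I`; for `f` with `DepOn I f` take `k` from `exists_proj`; `f - k` is pure, and `k` is a
finite sum of functions of fewer coordinates, which are sums of pure functions of the subsets of
their coordinate sets by induction.  Conclude with `Submodule.span_induction` for `degLE`. -/
theorem decomp (ok : κ → κ → S → S → Prop) (R : ℕ → ℝ) (hR : ∀ i, 0 ≤ R i) (t : ℕ)
    (g : (κ → S) → ℝ) (hg : g ∈ degLE κ S t) :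
    ∃ G : Finset κ → (κ → S) → ℝ, (∀ I, IsPure ok R I (G I)) ∧
      (∀ I : Finset κ, t < I.card → G I = 0) ∧ ∀ z, g z = ∑ I, G I z := by
  have h1 : degLE κ S t ≤ Dec ok R t := by
    unfold degLE
    rw [Submodule.span_le]
    rintro h ⟨Q, hQ, hh⟩
    exact dec_of_dep ok R hR t Q.card Q rfl hQ h hh
  exact h1 hg

end Pool.Agent.Lib.SDF2
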