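import Pool.Agent.Lib.SDF2.A1

/-!
Row A3: one step of the telescoping sum, in one link.
-/

set_option autoImplicit false

namespace Pool.Agent.Lib.SDF2

open Finset

/-- Put `m = N0⁻¹ * ∑ s ∈ X, f s` and apply `hQ` to `f - m` (whose sum over `X` is `0`).  For
`s' ∈ Y` the sum of `f` over the `N1` neighbours of `s'` is `N1 * m` plus the sum of `f - m`; the
cross term vanishes as every `s ∈ X` has `N1` neighbours in `Y`; finally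
`∑ (f - m) ^ 2 ≤ ∑ f ^ 2`. -/
theorem fiber {S : Type*} (X Y : Finset S) (r : S → S → Prop) [DecidableRel r]
    (N0 N1 η : ℝ) (hN0 : 0 < N0) (hN1 : 0 < N1) (hη : 0 ≤ η)
    (hX : (X.card : ℝ) = N0) (hY : (Y.card : ℝ) = N0)
    (hdY : ∀ s' ∈ Y, ((X.filter fun s => r s s').card : ℝ) = N1)
    (hdX : ∀ s ∈ X, ((Y.filter fun s' => r s s').card : ℝ) = N1)
    (hQ : ∀ f : S → ℝ, ∑ s ∈ X, f s = 0 →
      ∑ s' ∈ Y, (∑ s ∈ X.filter (fun s => r s s'), f s) ^ 2 ≤ η * N1 ^ 2 * ∑ s ∈ X, f s ^ 2)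
    (f : S → ℝ) :
    ∑ s' ∈ Y, (N1⁻¹ * ∑ s ∈ X.filter (fun s => r s s'), f s) ^ 2
      ≤ N0 * (N0⁻¹ * ∑ s ∈ X, f s) ^ 2 + η * ∑ s ∈ X, f s ^ 2 := by
  obtain ⟨m, hm⟩ : ∃ m : ℝ, m = N0⁻¹ * ∑ s ∈ X, f s := ⟨_, rfl⟩
  have hsum : ∑ s ∈ X, f s = N0 * m := by
    rw [hm]; field_simp
  have hg0 : ∑ s ∈ X, (f s - m) = 0 := by
    rw [sum_sub_distrib, sum_const, nsmul_eq_mul, hX, hsum]; ring
  have hq := hQ (fun s => f s - m) hg0
  have hg2 : ∑ s ∈ X, (f s - m) ^ 2 ≤ ∑ s ∈ X, f s ^ 2 := by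
    have h1 : ∑ s ∈ X, (f s - m) ^ 2 = ∑ s ∈ X, f s ^ 2 - N0 * m ^ 2 := by
      have h2 : ∀ s ∈ X, (f s - m) ^ 2 = f s ^ 2 - 2 * m * f s + m ^ 2 := fun s _ => by ring
      rw [sum_congr rfl h2, sum_add_distrib, sum_sub_distrib, ← mul_sum, hsum, sum_const,
        nsmul_eq_mul, hX]
      ring
    have h3 : 0 ≤ N0 * m ^ 2 := by positivity
    linarith
  have hcross : ∑ s' ∈ Y, ∑ s ∈ X.filter (fun s => r s s'), (f s - m) = 0 := by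
    have h1 : ∀ s' ∈ Y, ∑ s ∈ X.filter (fun s => r s s'), (f s - m) =
        ∑ s ∈ X, if r s s' then (f s - m) else 0 := fun s' _ => by
      rw [sum_filter]
    rw [sum_congr rfl h1, sum_comm]
    have h2 : ∀ s ∈ X, ∑ s' ∈ Y, (if r s s' then (f s - m) else 0) = N1 * (f s - m) := by
      intro s hs
      rw [← sum_filter, sum_const, nsmul_eq_mul, hdX s hs]
    rw [sum_congr rfl h2, ← mul_sum, hg0, mul_zero]
  have hterm : ∀ s' ∈ Y, (N1⁻¹ * ∑ s ∈ X.filter (fun s => r s s'), f s) ^ 2 =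
      m ^ 2 + 2 * m * N1⁻¹ * ∑ s ∈ X.filter (fun s => r s s'), (f s - m) +
        N1⁻¹ ^ 2 * (∑ s ∈ X.filter (fun s => r s s'), (f s - m)) ^ 2 := by
    intro s' hs'
    have h1 : ∑ s ∈ X.filter (fun s => r s s'), f s =
        ∑ s ∈ X.filter (fun s => r s s'), (f s - m) + N1 * m := by
      rw [sum_sub_distrib, sum_const, nsmul_eq_mul, hdY s' hs']; ring
    rw [h1]
    have h2 : N1⁻¹ * N1 = 1 := inv_mul_cancel₀ hN1.ne'
    linear_combination (2 * m * N1⁻¹ * (∑ s ∈ X.filter (fun s => r s s'), (f s - m)) +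
      m ^ 2 * (N1⁻¹ * N1 + 1)) * h2
  rw [sum_congr rfl hterm, sum_add_distrib, sum_add_distrib, sum_const, nsmul_eq_mul, hY,
    ← mul_sum, hcross, mul_zero, add_zero, ← mul_sum, ← hm]
  have h3 : N1⁻¹ ^ 2 * ∑ s' ∈ Y, (∑ s ∈ X.filter (fun s => r s s'), (f s - m)) ^ 2 ≤
      η * ∑ s ∈ X, f s ^ 2 := by
    calc N1⁻¹ ^ 2 * ∑ s' ∈ Y, (∑ s ∈ X.filter (fun s => r s s'), (f s - m)) ^ 2
        ≤ N1⁻¹ ^ 2 * (η * N1 ^ 2 * ∑ s ∈ X, (f s - m) ^ 2) :=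
          mul_le_mul_of_nonneg_left hq (by positivity)
      _ = η * ∑ s ∈ X, (f s - m) ^ 2 := by field_simp
      _ ≤ η * ∑ s ∈ X, f s ^ 2 := mul_le_mul_of_nonneg_left hg2 hη
  linarith

end Pool.Agent.Lib.SDF2
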