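import Pool.Agent.Lib.SDF2.A1
import Pool.Agent.Lib.SDF2.A3

/-!
Row A4: the telescoping step.
-/

set_option autoImplicit false

namespace Pool.Agent.Lib.SDF2

open Finset
open Pool.Agent.Lib.MP_678664_lc_h67 (Cons moeb)

variable {κ S : Type*} [Fintype κ] [DecidableEq κ] [Fintype S] [Nonempty S]

private theorem cons_insert_update (ok : κ → κ → S → S → Prop)
    (hsymm : ∀ v w s t, ok v w s t → ok w v t s) (D : Finset κ) (x : κ) (hx : x ∉ D)
    (z : κ → S) (s : S) :
    Cons ok (insert x D) (Function.update z x s) ↔ (Cons ok D z ∧ s ∈ lk ok D z x) := by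
  classical
  constructor
  · intro h
    refine ⟨fun v hv w hw hvw => ?_, ?_⟩
    · have := h v (mem_insert_of_mem hv) w (mem_insert_of_mem hw) hvw
      rwa [Function.update_of_ne (ne_of_mem_of_not_mem hv hx),
        Function.update_of_ne (ne_of_mem_of_not_mem hw hx)] at this
    · simp only [lk, mem_filter, mem_univ, true_and]
      intro w hw
      have hxw : x ≠ w := (ne_of_mem_of_not_mem hw hx).symm
      have := h x (mem_insert_self _ _) w (mem_insert_of_mem hw) hxw
      rwa [Function.update_self, Function.update_of_ne hxw.symm] at this
  · rintro ⟨h1, h2⟩ v hv w hw hvw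
    simp only [lk, mem_filter, mem_univ, true_and] at h2
    rcases mem_insert.1 hv with hvx | hv'
    · subst hvx
      rcases mem_insert.1 hw with hwx | hw'
      · exact absurd hwx.symm hvw
      · rw [Function.update_self, Function.update_of_ne hvw.symm]
        exact h2 w hw'
    · rcases mem_insert.1 hw with hwx | hw'
      · rw [hwx, Function.update_self, Function.update_of_ne (hwx ▸ hvw)]
        exact hsymm _ _ _ _ (h2 v hv')
      · rw [Function.update_of_ne (ne_of_mem_of_not_mem hv' hx),
          Function.update_of_ne (ne_of_mem_of_not_mem hw' hx)]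
        exact h1 v hv' w hw' hvw

private theorem rho_insert_update (ok : κ → κ → S → S → Prop)
    (hsymm : ∀ v w s t, ok v w s t → ok w v t s) (R : ℕ → ℝ) (D : Finset κ) (x : κ) (hx : x ∉ D)
    (z : κ → S) (hz : Cons ok D z) (F : S → ℝ) :
    ∑ s, rho ok R (insert x D) (Function.update z x s) * F s =
      R (D.card + 1) * ∑ s ∈ lk ok D z x, F s := by
  classical
  have h1 : ∀ s, rho ok R (insert x D) (Function.update z x s) * F s =
      if s ∈ lk ok D z x then R (D.card + 1) * F s else 0 := by
    intro s
    unfold rho
    rw [card_insert_of_notMem hx]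
    by_cases hs : s ∈ lk ok D z x
    · rw [if_pos ((cons_insert_update ok hsymm D x hx z s).2 ⟨hz, hs⟩), if_pos hs]
    · rw [if_neg (fun h => hs ((cons_insert_update ok hsymm D x hx z s).1 h).2), if_neg hs,
        zero_mul]
  simp only [h1]
  rw [← sum_filter, mul_sum]
  refine sum_congr ?_ fun _ _ => rfl
  ext s
  simp

private theorem rho_insert_update_not (ok : κ → κ → S → S → Prop)
    (hsymm : ∀ v w s t, ok v w s t → ok w v t s) (R : ℕ → ℝ) (D : Finset κ) (x : κ) (hx : x ∉ D)
    (z : κ → S) (hz : ¬ Cons ok D z) (s : S) :
    rho ok R (insert x D) (Function.update z x s) = 0 := by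
  unfold rho
  exact if_neg (fun h => hz ((cons_insert_update ok hsymm D x hx z s).1 h).1)

/-- `Phi` and the density: `rho D * Phi = (average over s of rho (insert x D) * f)`. -/
theorem rho_mul_Phi (ok : κ → κ → S → S → Prop)
    (hsymm : ∀ v w s t, ok v w s t → ok w v t s) (R : ℕ → ℝ) (u : ℕ)
    (hRpos : ∀ i, i < u → 0 < R i) (D : Finset κ) (x : κ) (hx : x ∉ D)
    (hD : D.card + 1 < u) (f : (κ → S) → ℝ) (z : κ → S) :
    (Fintype.card S : ℝ) * (rho ok R D z * Phi ok R x D f z)
      = ∑ s, rho ok R (insert x D) (Function.update z x s) * f (Function.update z x s) := by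
  by_cases hz : Cons ok D z
  · rw [rho_insert_update ok hsymm R D x hx z hz (fun s => f (Function.update z x s))]
    have h1 : rho ok R D z = R D.card := if_pos hz
    rw [h1]
    unfold Phi Num
    have h2 := hRpos D.card (by omega)
    have h3 := hRpos (D.card + 1) hD
    have h4 : (0 : ℝ) < Fintype.card S := by exact_mod_cast Fintype.card_pos
    field_simp
  · have h1 : rho ok R D z = 0 := if_neg hz
    rw [h1, zero_mul, mul_zero]
    symm
    refine sum_eq_zero fun s _ => ?_
    rw [rho_insert_update_not ok hsymm R D x hx z hz s, zero_mul]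

/-- For a consistent `z` on `D` apply `fiber` with `X = lk ok D z x`, `Y = lk ok D z y`,
`r s s' = ok x y s s'`, `N0 = Num S R D.card`, `N1 = Num S R (D.card + 1)` and the function
`s ↦ f (update z x s)`; `lk ok (insert y D) (update z y s') x` is the filter of `X` by `ok x y s s'`
for `s' ∈ Y`.  Multiply by `R (D.card + 1) / card S`, sum over `z` (`MP_678664_lc_h67.resample`
turns `∑ z` into `∑ z, ∑ s'` over `update z y s'`). -/
theorem step (ok : κ → κ → S → S → Prop)
    (hsymm : ∀ v w s t, ok v w s t → ok w v t s) (R : ℕ → ℝ) (u t : ℕ) (hext : Ext ok R u)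
    (hRpos : ∀ i, i < u → 0 < R i) (htu : 2 * t < u) (η : ℝ) (hη : 0 ≤ η)
    (hQ : Quasi ok R t η) (D : Finset κ) (x y : κ) (hx : x ∉ D) (hy : y ∉ D) (hxy : x ≠ y)
    (hD : D.card + 2 ≤ 2 * t) (f : (κ → S) → ℝ) (hf : DepOn (insert x D) f) :
    ∑ z, rho ok R (insert y D) z * Phi ok R x (insert y D) f z ^ 2
      ≤ ∑ z, rho ok R D z * Phi ok R x D f z ^ 2
        + η * ∑ z, rho ok R (insert x D) z * f z ^ 2 := by
  classical
  have hS : (0 : ℝ) < Fintype.card S := by exact_mod_cast Fintype.card_pos
  have hR0 := hRpos D.card (by omega)
  have hR1 := hRpos (D.card + 1) (by omega)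
  have hR2 := hRpos (D.card + 2) (by omega)
  have hN0 : 0 < Num S R D.card := by unfold Num; positivity
  have hN1 : 0 < Num S R (D.card + 1) := by
    unfold Num
    have : D.card + 1 + 1 = D.card + 2 := rfl
    rw [this]
    positivity
  -- the size of a link
  have hlk : ∀ (I : Finset κ) (g : κ), g ∉ I → I.card + 1 < u → ∀ z : κ → S, Cons ok I z →
      ((lk ok I z g).card : ℝ) = Num S R I.card := by
    intro I g hg hI z hz
    have h1 := hext I g hg hI z hz
    have h2 := hRpos (I.card + 1) hI
    unfold Num
    rw [eq_div_iff h2.ne']
    exact h1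
  -- one consistent choice
  have hone : ∀ z : κ → S,
      ∑ s', rho ok R (insert y D) (Function.update z y s') *
          Phi ok R x (insert y D) f (Function.update z y s') ^ 2 ≤
        Fintype.card S * (rho ok R D z * Phi ok R x D f z ^ 2) +
          η * ∑ s, rho ok R (insert x D) (Function.update z x s) *
            f (Function.update z x s) ^ 2 := by
    intro z
    by_cases hz : Cons ok D z
    · have hlink : ∀ s' ∈ lk ok D z y, lk ok (insert y D) (Function.update z y s') x =
          (lk ok D z x).filter (fun s => ok x y s s') := by
        intro s' _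
        ext s
        simp only [lk, mem_filter, mem_univ, true_and, mem_insert, forall_eq_or_imp,
          Function.update_self]
        constructor
        · rintro ⟨h1, h2⟩
          refine ⟨fun w hw => ?_, h1⟩
          have := h2 w hw
          rwa [Function.update_of_ne (ne_of_mem_of_not_mem hw hy)] at this
        · rintro ⟨h1, h2⟩
          refine ⟨h2, fun w hw => ?_⟩
          rw [Function.update_of_ne (ne_of_mem_of_not_mem hw hy)]
          exact h1 w hw
      have hlink' : ∀ s ∈ lk ok D z x, lk ok (insert x D) (Function.update z x s) y =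
          (lk ok D z y).filter (fun s' => ok x y s s') := by
        intro s _
        ext s'
        simp only [lk, mem_filter, mem_univ, true_and, mem_insert, forall_eq_or_imp,
          Function.update_self]
        constructor
        · rintro ⟨h1, h2⟩
          refine ⟨fun w hw => ?_, hsymm _ _ _ _ h1⟩
          have := h2 w hw
          rwa [Function.update_of_ne (ne_of_mem_of_not_mem hw hx)] at this
        · rintro ⟨h1, h2⟩
          refine ⟨hsymm _ _ _ _ h2, fun w hw => ?_⟩
          rw [Function.update_of_ne (ne_of_mem_of_not_mem hw hx)]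
          exact h1 w hw
      have hcx : (insert x D).card = D.card + 1 := card_insert_of_notMem hx
      have hcy : (insert y D).card = D.card + 1 := card_insert_of_notMem hy
      have hxy' : x ∉ insert y D := by
        simp only [mem_insert, not_or]
        exact ⟨hxy, hx⟩
      have hyx' : y ∉ insert x D := by
        simp only [mem_insert, not_or]
        exact ⟨hxy.symm, hy⟩
      have hfib := fiber (lk ok D z x) (lk ok D z y) (fun s s' => ok x y s s')
        (Num S R D.card) (Num S R (D.card + 1)) η hN0 hN1 hη
        (hlk D x hx (by omega) z hz) (hlk D y hy (by omega) z hz)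
        (by
          intro s' hs'
          rw [← hlink s' hs']
          have := hlk (insert y D) x hxy' (by omega) (Function.update z y s')
            ((cons_insert_update ok hsymm D y hy z s').2 ⟨hz, hs'⟩)
          rw [hcy] at this
          exact this)
        (by
          intro s hs
          rw [← hlink' s hs]
          have := hlk (insert x D) y hyx' (by omega) (Function.update z x s)
            ((cons_insert_update ok hsymm D x hx z s).2 ⟨hz, hs⟩)
          rw [hcx] at this
          exact this)
        (by
          intro f' hf'
          exact hQ D x y hx hy hxy hD z hz f' hf')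
        (fun s => f (Function.update z x s))
      rw [rho_insert_update ok hsymm R D y hy z hz
          (fun s' => Phi ok R x (insert y D) f (Function.update z y s') ^ 2),
        rho_insert_update ok hsymm R D x hx z hz (fun s => f (Function.update z x s) ^ 2)]
      have hPhi : ∀ s' ∈ lk ok D z y, Phi ok R x (insert y D) f (Function.update z y s') ^ 2 =
          ((Num S R (D.card + 1))⁻¹ *
            ∑ s ∈ (lk ok D z x).filter (fun s => ok x y s s'), f (Function.update z x s)) ^ 2 := by
        intro s' hs'
        unfold Phi
        rw [hcy, hlink s' hs']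
        congr 2
        refine sum_congr rfl fun s _ => ?_
        refine hf _ _ fun v hv => ?_
        rcases mem_insert.1 hv with rfl | hv
        · rw [Function.update_self, Function.update_self]
        · rw [Function.update_of_ne (ne_of_mem_of_not_mem hv hx),
            Function.update_of_ne (ne_of_mem_of_not_mem hv hy),
            Function.update_of_ne (ne_of_mem_of_not_mem hv hx)]
      rw [sum_congr rfl hPhi]
      have h1 : rho ok R D z = R D.card := if_pos hz
      rw [h1]
      have h2 : (Fintype.card S : ℝ) * (R D.card * Phi ok R x D f z ^ 2) =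
          R (D.card + 1) * (Num S R D.card * Phi ok R x D f z ^ 2) := by
        unfold Num
        field_simp
      rw [h2]
      have h3 : Phi ok R x D f z =
          (Num S R D.card)⁻¹ * ∑ s ∈ lk ok D z x, f (Function.update z x s) := rfl
      rw [h3]
      have h4 := mul_le_mul_of_nonneg_left hfib hR1.le
      refine h4.trans (le_of_eq ?_)
      ring
    · have h1 : rho ok R D z = 0 := if_neg hz
      have h2 : ∑ s', rho ok R (insert y D) (Function.update z y s') *
          Phi ok R x (insert y D) f (Function.update z y s') ^ 2 = 0 :=
        sum_eq_zero fun s' _ => by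
          rw [rho_insert_update_not ok hsymm R D y hy z hz s', zero_mul]
      have h3 : ∑ s, rho ok R (insert x D) (Function.update z x s) *
            f (Function.update z x s) ^ 2 = 0 :=
        sum_eq_zero fun s _ => by
          rw [rho_insert_update_not ok hsymm R D x hx z hz s, zero_mul]
      rw [h1, h2, h3]
      simp
  have hsum := sum_le_sum fun (z : κ → S) (_ : z ∈ univ) => hone z
  rw [Pool.Agent.Lib.MP_678664_lc_h67.resample
      (fun z => rho ok R (insert y D) z * Phi ok R x (insert y D) f z ^ 2) y,
    sum_add_distrib, ← mul_sum, ← mul_sum,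
    Pool.Agent.Lib.MP_678664_lc_h67.resample
      (fun z => rho ok R (insert x D) z * f z ^ 2) x] at hsum
  refine le_of_mul_le_mul_left ?_ hS
  refine hsum.trans (le_of_eq ?_)
  ring

end Pool.Agent.Lib.SDF2
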