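import Pool.Agent.Lib.SDF2.A4

/-!
Row A5: pure functions of different coordinate sets are nearly orthogonal.
-/

set_option autoImplicit false

namespace Pool.Agent.Lib.SDF2

open Finset
open Pool.Agent.Lib.MP_678664_lc_h67 (Cons moeb)

variable {κ S : Type*} [Fintype κ] [DecidableEq κ] [Fintype S] [Nonempty S]

/-- The conditional expectation. -/
private theorem cond_eq (ok : κ → κ → S → S → Prop)
    (hsymm : ∀ v w s t, ok v w s t → ok w v t s) (R : ℕ → ℝ) (u : ℕ)
    (hRpos : ∀ i, i < u → 0 < R i) (D : Finset κ) (x : κ) (hx : x ∉ D)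
    (hD : D.card + 1 < u) (f g : (κ → S) → ℝ) (hg : DepOn D g) :
    ∑ z, rho ok R (insert x D) z * (f z * g z) = ∑ z, rho ok R D z * (Phi ok R x D f z * g z) := by
  have hS : (Fintype.card S : ℝ) ≠ 0 := by
    exact_mod_cast Fintype.card_ne_zero
  have h1 := MP_678664_lc_h67.resample (fun z => rho ok R (insert x D) z * (f z * g z)) x
  refine mul_left_cancel₀ hS ?_
  rw [← h1, Finset.mul_sum]
  refine Finset.sum_congr rfl fun z _ => ?_
  have h2 := rho_mul_Phi ok hsymm R u hRpos D x hx hD f z
  have h3 : ∀ s, g (Function.update z x s) = g z := fun s =>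
    hg _ _ fun v hv => Function.update_of_ne (ne_of_mem_of_not_mem hv hx) _ _
  simp only [h3]
  rw [show (Fintype.card S : ℝ) * (rho ok R D z * (Phi ok R x D f z * g z)) =
    ((Fintype.card S : ℝ) * (rho ok R D z * Phi ok R x D f z)) * g z by ring, h2, Finset.sum_mul]
  exact Finset.sum_congr rfl fun s _ => by ring

omit [Nonempty S] in
private theorem Phi_dep (ok : κ → κ → S → S → Prop) (R : ℕ → ℝ) (D : Finset κ) (x : κ)
    (f : (κ → S) → ℝ) (hf : DepOn (insert x D) f) : DepOn D (Phi ok R x D f) := by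
  classical
  intro z z' h
  unfold Phi
  have h1 : lk ok D z x = lk ok D z' x := by
    unfold lk
    refine Finset.filter_congr fun s _ => ?_
    refine forall₂_congr fun w hw => ?_
    rw [h w hw]
  rw [h1]
  congr 1
  refine Finset.sum_congr rfl fun s _ => hf _ _ fun v hv => ?_
  by_cases hv' : v = x
  · rw [hv']
    simp
  · rw [Function.update_of_ne hv', Function.update_of_ne hv']
    exact h v (Finset.mem_of_mem_insert_of_ne hv hv')

/-- Induction on `C` (disjoint from `I`) with `step`: the base case `C = ∅` is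
`∑ z, rho (I.erase x) z * Phi z ^ 2 = 0`, because `Phi ok R x (I.erase x) f` depends only on
`I.erase x`, so that (by `rho_mul_Phi` and resampling) the sum is
`∑ z, rho I z * (f z * Phi z) = 0` (purity).  The masses of `f` are compared by `sum_marg`. -/
theorem tele (ok : κ → κ → S → S → Prop)
    (hsymm : ∀ v w s t, ok v w s t → ok w v t s) (R : ℕ → ℝ) (u t : ℕ) (hext : Ext ok R u)
    (hRpos : ∀ i, i < u → 0 < R i) (htu : 2 * t < u) (η : ℝ) (hη : 0 ≤ η)
    (hQ : Quasi ok R t η) (I : Finset κ) (x : κ) (hx : x ∈ I) (f : (κ → S) → ℝ)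
    (hf : IsPure ok R I f) (C : Finset κ) (hC : Disjoint I C) (hIC : I.card + C.card ≤ 2 * t) :
    ∑ z, rho ok R (I.erase x ∪ C) z * Phi ok R x (I.erase x ∪ C) f z ^ 2
      ≤ C.card * η * ∑ z, rho ok R I z * f z ^ 2 := by
  induction C using Finset.induction_on with
  | empty =>
    have hcard : (I.erase x).card + 1 = I.card := Finset.card_erase_add_one hx
    have hIx : insert x (I.erase x) = I := Finset.insert_erase hx
    have h0 : DepOn (I.erase x) (Phi ok R x (I.erase x) f) :=
      Phi_dep ok R (I.erase x) x f (by rw [hIx]; exact hf.1)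
    have hu : (I.erase x).card + 1 < u := by
      rw [Finset.card_empty] at hIC
      omega
    have h1 := cond_eq ok hsymm R u hRpos (I.erase x) x (Finset.notMem_erase x I) hu f
      (Phi ok R x (I.erase x) f) h0
    rw [hIx, hf.2 (I.erase x) (Finset.erase_ssubset hx) _ h0] at h1
    rw [Finset.union_empty, Finset.card_empty]
    simp only [pow_two]
    rw [← h1]
    simp
  | insert y C hyC ih =>
    have hyI : y ∉ I := fun h => (Finset.disjoint_left.1 hC h) (Finset.mem_insert_self y C)
    have hC' : Disjoint I C := hC.mono_right (Finset.subset_insert y C)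
    rw [Finset.card_insert_of_notMem hyC] at hIC ⊢
    have ih' := ih hC' (by omega)
    obtain ⟨D, hD⟩ : ∃ D, D = I.erase x ∪ C := ⟨_, rfl⟩
    have e1 : I.erase x ∪ insert y C = insert y D := by
      rw [hD, Finset.union_insert]
    have hxC : x ∉ C := Finset.disjoint_left.1 hC' hx
    have hxD : x ∉ D := by
      rw [hD, Finset.mem_union]
      rintro (h | h)
      · exact Finset.notMem_erase x I h
      · exact hxC h
    have hyD : y ∉ D := by
      rw [hD, Finset.mem_union]
      rintro (h | h)
      · exact hyI (Finset.mem_of_mem_erase h)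
      · exact hyC h
    have hxy : x ≠ y := fun h => hyI (h ▸ hx)
    have hcard : (I.erase x).card + 1 = I.card := Finset.card_erase_add_one hx
    have hDc : D.card ≤ (I.erase x).card + C.card := by
      rw [hD]
      exact Finset.card_union_le _ _
    have hsub : I ⊆ insert x D := by
      intro v hv
      by_cases h : v = x
      · rw [h]
        exact Finset.mem_insert_self _ _
      · refine Finset.mem_insert_of_mem ?_
        rw [hD]
        exact Finset.mem_union_left _ (Finset.mem_erase.2 ⟨h, hv⟩)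
    have hfD : DepOn (insert x D) f := fun z z' h => hf.1 z z' fun v hv => h v (hsub hv)
    have h2 := step ok hsymm R u t hext hRpos htu η hη hQ D x y hxD hyD hxy (by omega) f hfD
    have hxDc : (insert x D).card < u := by
      have := Finset.card_insert_le x D
      omega
    have hf2 : DepOn I fun z => f z ^ 2 := fun z z' h => by
      simp only
      rw [hf.1 z z' h]
    have h3 := sum_marg ok hsymm R u hext I (insert x D) hsub hxDc (fun z => f z ^ 2) hf2
    rw [← hD] at ih'
    rw [e1]
    rw [h3] at h2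
    push_cast
    calc _ ≤ _ := h2
      _ ≤ C.card * η * ∑ z, rho ok R I z * f z ^ 2 + η * ∑ z, rho ok R I z * f z ^ 2 :=
        add_le_add ih' le_rfl
      _ = _ := by ring

/-- With `D = (I ∪ I').erase x` the left side is `(∑ z, rho D z * (Phi z * f' z)) ^ 2` (by
`rho_mul_Phi`; `f'` does not depend on `x`); Cauchy-Schwarz, `tele` with `C = I' \ I`, and
`sum_marg` for `f' ^ 2`. -/
theorem near_orth (ok : κ → κ → S → S → Prop)
    (hsymm : ∀ v w s t, ok v w s t → ok w v t s) (R : ℕ → ℝ) (u t : ℕ) (hext : Ext ok R u)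
    (hR : ∀ i, 0 ≤ R i) (hRpos : ∀ i, i < u → 0 < R i) (htu : 2 * t < u) (η : ℝ) (hη : 0 ≤ η)
    (hQ : Quasi ok R t η) (I I' : Finset κ) (x : κ) (hx : x ∈ I) (hx' : x ∉ I')
    (hI : I.card ≤ t) (hI' : I'.card ≤ t) (f f' : (κ → S) → ℝ)
    (hf : IsPure ok R I f) (hf' : DepOn I' f') :
    (∑ z, rho ok R (I ∪ I') z * (f z * f' z)) ^ 2
      ≤ t * η * (∑ z, rho ok R I z * f z ^ 2) * ∑ z, rho ok R I' z * f' z ^ 2 := by
  classical
  obtain ⟨D, hD⟩ : ∃ D, D = I.erase x ∪ (I' \ I) := ⟨_, rfl⟩
  have hxD : x ∉ D := by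
    rw [hD, Finset.mem_union, Finset.mem_sdiff]
    rintro (h | h)
    · exact Finset.notMem_erase x I h
    · exact hx' h.1
  have e1 : insert x D = I ∪ I' := by
    rw [hD]
    ext v
    simp only [Finset.mem_insert, Finset.mem_union, Finset.mem_erase, Finset.mem_sdiff]
    constructor
    · rintro (h | h | h)
      · exact Or.inl (h ▸ hx)
      · exact Or.inl h.2
      · exact Or.inr h.1
    · rintro (h | h)
      · by_cases hv : v = x
        · exact Or.inl hv
        · exact Or.inr (Or.inl ⟨hv, h⟩)
      · by_cases hv : v ∈ I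
        · by_cases hv' : v = x
          · exact Or.inl hv'
          · exact Or.inr (Or.inl ⟨hv', hv⟩)
        · exact Or.inr (Or.inr ⟨h, hv⟩)
  have hI'D : I' ⊆ D := by
    intro v hv
    have h1 : v ∈ insert x D := by
      rw [e1]
      exact Finset.mem_union_right _ hv
    exact Finset.mem_of_mem_insert_of_ne h1 fun h => hx' (h ▸ hv)
  have hcard : D.card + 1 = (I ∪ I').card := by
    rw [← e1, Finset.card_insert_of_notMem hxD]
  have hcu : (I ∪ I').card ≤ I.card + I'.card := Finset.card_union_le _ _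
  have hDu : D.card + 1 < u := by omega
  have hf'D : DepOn D f' := fun z z' h => hf' z z' fun v hv => h v (hI'D hv)
  have h1 := cond_eq ok hsymm R u hRpos D x hxD hDu f f' hf'D
  rw [e1] at h1
  rw [h1]
  have hsd : (I' \ I).card ≤ t := (Finset.card_le_card Finset.sdiff_subset).trans hI'
  have h2 := tele ok hsymm R u t hext hRpos htu η hη hQ I x hx f hf (I' \ I)
    Finset.disjoint_sdiff (by omega)
  rw [← hD] at h2
  have hf2 : DepOn I' fun z => f' z ^ 2 := fun z z' h => by
    simp only
    rw [hf' z z' h]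
  have h3 := sum_marg ok hsymm R u hext I' D hI'D (by omega) (fun z => f' z ^ 2) hf2
  have hr : ∀ (J : Finset κ) z, 0 ≤ rho ok R J z := rho_nonneg ok R hR
  have hA : 0 ≤ ∑ z, rho ok R I z * f z ^ 2 :=
    Finset.sum_nonneg fun z _ => mul_nonneg (hr I z) (sq_nonneg _)
  have hB : 0 ≤ ∑ z, rho ok R I' z * f' z ^ 2 :=
    Finset.sum_nonneg fun z _ => mul_nonneg (hr I' z) (sq_nonneg _)
  have hCS : (∑ z, rho ok R D z * (Phi ok R x D f z * f' z)) ^ 2 ≤
      (∑ z, rho ok R D z * Phi ok R x D f z ^ 2) * ∑ z, rho ok R D z * f' z ^ 2 := by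
    have h4 := Finset.sum_mul_sq_le_sq_mul_sq Finset.univ
      (fun z => Real.sqrt (rho ok R D z) * Phi ok R x D f z)
      (fun z => Real.sqrt (rho ok R D z) * f' z)
    have e2 : ∀ z, Real.sqrt (rho ok R D z) * Phi ok R x D f z *
        (Real.sqrt (rho ok R D z) * f' z) = rho ok R D z * (Phi ok R x D f z * f' z) := by
      intro z
      have := Real.mul_self_sqrt (hr D z)
      calc _ = (Real.sqrt (rho ok R D z) * Real.sqrt (rho ok R D z)) *
            (Phi ok R x D f z * f' z) := by ring
        _ = _ := by rw [this]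
    have e3 : ∀ z, (Real.sqrt (rho ok R D z) * Phi ok R x D f z) ^ 2 =
        rho ok R D z * Phi ok R x D f z ^ 2 := by
      intro z
      rw [mul_pow, Real.sq_sqrt (hr D z)]
    have e4 : ∀ z, (Real.sqrt (rho ok R D z) * f' z) ^ 2 = rho ok R D z * f' z ^ 2 := by
      intro z
      rw [mul_pow, Real.sq_sqrt (hr D z)]
    simp only [e2, e3, e4] at h4
    exact h4
  rw [h3] at hCS
  refine hCS.trans (mul_le_mul_of_nonneg_right (h2.trans ?_) hB)
  refine mul_le_mul_of_nonneg_right (mul_le_mul_of_nonneg_right ?_ hη) hA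
  exact_mod_cast hsd

end Pool.Agent.Lib.SDF2
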