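import Pool.Agent.Lib.SDF2.A5
import Pool.Agent.Lib.SDF2.A2

/-!
Row A6: the test function is nonnegative on squares.
-/

set_option autoImplicit false

namespace Pool.Agent.Lib.SDF2

open Finset
open Pool.Agent.Lib.MP_678664_lc_h67 (Cons moeb)
open Pool.Agent.Lib.SDF (degLE Junta)

variable {κ S : Type*} [Fintype κ] [DecidableEq κ] [Fintype S] [Nonempty S]

private theorem lower_pair (ok : κ → κ → S → S → Prop)
    (hsymm : ∀ v w s t, ok v w s t → ok w v t s) (R : ℕ → ℝ) (u t : ℕ) (hext : Ext ok R u)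
    (hR : ∀ i, 0 ≤ R i) (hRpos : ∀ i, i < u → 0 < R i) (htu : 2 * t < u) (η : ℝ) (hη : 0 ≤ η)
    (hQ : Quasi ok R t η) (hsmall : 4 ^ Fintype.card κ * (t * η) ≤ 1)
    (I I' : Finset κ) (hne : I ≠ I') (hI : I.card ≤ t) (hI' : I'.card ≤ t)
    (f f' : (κ → S) → ℝ) (hf : IsPure ok R I f) (hf' : IsPure ok R I' f') :
    -((∑ z, rho ok R I z * f z ^ 2 + ∑ z, rho ok R I' z * f' z ^ 2) /
        (2 * 2 ^ Fintype.card κ)) ≤
      ∑ z, rho ok R (I ∪ I') z * (f z * f' z) := by
  obtain ⟨a, ha⟩ : ∃ a, a = ∑ z, rho ok R I z * f z ^ 2 := ⟨_, rfl⟩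
  obtain ⟨a', ha'⟩ : ∃ a', a' = ∑ z, rho ok R I' z * f' z ^ 2 := ⟨_, rfl⟩
  obtain ⟨b, hb⟩ : ∃ b, b = ∑ z, rho ok R (I ∪ I') z * (f z * f' z) := ⟨_, rfl⟩
  have h0 : 0 ≤ a := by
    rw [ha]
    exact Finset.sum_nonneg fun z _ => mul_nonneg (rho_nonneg ok R hR I z) (sq_nonneg _)
  have h0' : 0 ≤ a' := by
    rw [ha']
    exact Finset.sum_nonneg fun z _ => mul_nonneg (rho_nonneg ok R hR I' z) (sq_nonneg _)
  have h1 : b ^ 2 ≤ t * η * a * a' := by
    by_cases hs : I ⊆ I'
    · obtain ⟨x, hx', hx⟩ : ∃ x ∈ I', x ∉ I := by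
        by_contra hcon
        push Not at hcon
        exact hne (Finset.Subset.antisymm hs hcon)
      have h2 := near_orth ok hsymm R u t hext hR hRpos htu η hη hQ I' I x hx' hx hI' hI f' f
        hf' hf.1
      have h3 : ∑ z, rho ok R (I' ∪ I) z * (f' z * f z) = b := by
        rw [hb]
        refine Finset.sum_congr rfl fun z _ => ?_
        rw [Finset.union_comm, mul_comm (f' z)]
      rw [h3, ← ha, ← ha'] at h2
      calc b ^ 2 ≤ t * η * a' * a := h2
        _ = _ := by ring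
    · rw [Finset.not_subset] at hs
      obtain ⟨x, hx, hx'⟩ := hs
      have h2 := near_orth ok hsymm R u t hext hR hRpos htu η hη hQ I I' x hx hx' hI hI' f f'
        hf hf'.1
      rwa [← hb, ← ha, ← ha'] at h2
  rw [← ha, ← ha', ← hb]
  obtain ⟨c, hc⟩ : ∃ c : ℝ, c = 2 ^ Fintype.card κ := ⟨_, rfl⟩
  have hc0 : 0 < c := by
    rw [hc]
    positivity
  have hc2 : c ^ 2 * (t * η) ≤ 1 := by
    have : (4 : ℝ) ^ Fintype.card κ = c ^ 2 := by
      rw [hc, ← pow_mul, mul_comm, pow_mul]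
      norm_num
    rw [← this]
    exact hsmall
  have h4 : (c * b) ^ 2 ≤ ((a + a') / 2) ^ 2 := by
    have h5 : (c * b) ^ 2 ≤ (c ^ 2 * (t * η)) * (a * a') := by
      calc (c * b) ^ 2 = c ^ 2 * b ^ 2 := by ring
        _ ≤ c ^ 2 * (t * η * a * a') := mul_le_mul_of_nonneg_left h1 (sq_nonneg c)
        _ = _ := by ring
    have h6 : (c ^ 2 * (t * η)) * (a * a') ≤ 1 * (a * a') :=
      mul_le_mul_of_nonneg_right hc2 (mul_nonneg h0 h0')
    nlinarith [sq_nonneg (a - a')]
  have h7 := (abs_le_of_sq_le_sq' h4 (by positivity)).1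
  rw [← hc]
  have h8 : -((a + a') / (2 * c)) = (-((a + a') / 2)) / c := by
    field_simp
  rw [h8, div_le_iff₀ hc0]
  linarith

/-- Write `g = ∑ I, G I` by `decomp`; by `sum_test_mul` the sum is
`∑ I, ∑ I', ∑ z, rho (I ∪ I') z * (G I z * G I' z)`.  With `a I = ∑ z, rho I z * G I z ^ 2`
every term with `I ≠ I'` is at least `- (a I + a I') / (2 * 2 ^ card κ)` by `near_orth` (for
`I` not contained in `I'`, or else with the roles exchanged) and
`4 ^ card κ * t * η ≤ 1`; so the sum is at least `∑ I, a I - ∑ I, a I = 0`. -/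
theorem psd (ok : κ → κ → S → S → Prop)
    (hsymm : ∀ v w s t, ok v w s t → ok w v t s) (R : ℕ → ℝ) (u t : ℕ) (hext : Ext ok R u)
    (hR : ∀ i, 0 ≤ R i) (hRpos : ∀ i, i < u → 0 < R i) (htu : 2 * t < u) (η : ℝ) (hη : 0 ≤ η)
    (hQ : Quasi ok R t η) (hsmall : 4 ^ Fintype.card κ * (t * η) ≤ 1)
    (g : (κ → S) → ℝ) (hg : g ∈ degLE κ S t) :
    0 ≤ ∑ z, (∑ J, pureComp ok R u J z) * g z ^ 2 := by
  classical
  obtain ⟨G, hG1, hG2, hG3⟩ := decomp ok R hR t g hg
  obtain ⟨a, ha⟩ : ∃ a : Finset κ → ℝ, a = fun I => ∑ z, rho ok R I z * G I z ^ 2 := ⟨_, rfl⟩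
  have ha0 : ∀ I, 0 ≤ a I := by
    intro I
    rw [ha]
    exact Finset.sum_nonneg fun z _ => mul_nonneg (rho_nonneg ok R hR I z) (sq_nonneg _)
  have e1 : ∑ z, (∑ J, pureComp ok R u J z) * g z ^ 2 =
      ∑ I, ∑ I', ∑ z, (G I z * G I' z) * ∑ J, pureComp ok R u J z := by
    have h1 : ∀ z, (∑ J, pureComp ok R u J z) * g z ^ 2 =
        ∑ I, ∑ I', (G I z * G I' z) * ∑ J, pureComp ok R u J z := by
      intro z
      rw [pow_two, hG3 z, Finset.sum_mul_sum, mul_comm, Finset.sum_mul]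
      refine Finset.sum_congr rfl fun I _ => ?_
      rw [Finset.sum_mul]
    rw [Finset.sum_congr rfl fun z _ => h1 z, Finset.sum_comm]
    refine Finset.sum_congr rfl fun I _ => ?_
    rw [Finset.sum_comm]
  have e2 : ∀ I I', ∑ z, (G I z * G I' z) * ∑ J, pureComp ok R u J z =
      ∑ z, rho ok R (I ∪ I') z * (G I z * G I' z) := by
    intro I I'
    by_cases hI : t < I.card
    · have h2 := hG2 I hI
      simp [h2]
    by_cases hI' : t < I'.card
    · have h2 := hG2 I' hI'
      simp [h2]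
    have hc : (I ∪ I').card ≤ I.card + I'.card := Finset.card_union_le _ _
    have hdep : DepOn (I ∪ I') fun z => G I z * G I' z := by
      intro z z' h
      simp only
      rw [(hG1 I).1 z z' fun v hv => h v (Finset.mem_union_left _ hv),
        (hG1 I').1 z z' fun v hv => h v (Finset.mem_union_right _ hv)]
    have h3 := sum_test_mul ok hsymm R u hext (I ∪ I') (by omega)
      (fun z => G I z * G I' z) hdep
    rw [h3]
    exact Finset.sum_congr rfl fun z _ => mul_comm _ _
  have e3 : ∀ I I', (if I = I' then a I else 0) -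
      (a I + a I') / (2 * 2 ^ Fintype.card κ) ≤
      ∑ z, rho ok R (I ∪ I') z * (G I z * G I' z) := by
    intro I I'
    have hpos : 0 ≤ (a I + a I') / (2 * 2 ^ Fintype.card κ) := by
      have h4 := ha0 I
      have h5 := ha0 I'
      positivity
    by_cases hII : I = I'
    · subst hII
      rw [if_pos rfl, Finset.union_self]
      have h6 : ∑ z, rho ok R I z * (G I z * G I z) = a I := by
        rw [ha]
        exact Finset.sum_congr rfl fun z _ => by ring
      rw [h6]
      linarith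
    · rw [if_neg hII]
      by_cases hI : t < I.card
      · have h2 := hG2 I hI
        simp only [h2, Pi.zero_apply, zero_mul, mul_zero, Finset.sum_const_zero]
        linarith
      by_cases hI' : t < I'.card
      · have h2 := hG2 I' hI'
        simp only [h2, Pi.zero_apply, mul_zero, Finset.sum_const_zero]
        linarith
      have h7 := lower_pair ok hsymm R u t hext hR hRpos htu η hη hQ hsmall I I' hII
        (not_lt.1 hI) (not_lt.1 hI') (G I) (G I') (hG1 I) (hG1 I')
      have h8 : (a I + a I') = ∑ z, rho ok R I z * G I z ^ 2 +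
          ∑ z, rho ok R I' z * G I' z ^ 2 := by rw [ha]
      rw [h8]
      linarith
  rw [e1]
  have h9 : ∑ I, ∑ I', ((if I = I' then a I else 0) -
      (a I + a I') / (2 * 2 ^ Fintype.card κ)) = 0 := by
    have hcard : (Finset.univ : Finset (Finset κ)).card = 2 ^ Fintype.card κ := by
      rw [Finset.card_univ, Fintype.card_finset]
    have hc0 : (2 : ℝ) ^ Fintype.card κ ≠ 0 := by positivity
    have h10 : ∀ I : Finset κ, ∑ I', ((if I = I' then a I else 0) -
        (a I + a I') / (2 * 2 ^ Fintype.card κ)) =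
        a I - (2 ^ Fintype.card κ * a I + ∑ I', a I') / (2 * 2 ^ Fintype.card κ) := by
      intro I
      rw [Finset.sum_sub_distrib, Finset.sum_ite_eq, if_pos (Finset.mem_univ I),
        ← Finset.sum_div, Finset.sum_add_distrib, Finset.sum_const, hcard, nsmul_eq_mul]
      push_cast
      rfl
    rw [Finset.sum_congr rfl fun I _ => h10 I, Finset.sum_sub_distrib, ← Finset.sum_div,
      Finset.sum_add_distrib, ← Finset.mul_sum, Finset.sum_const, hcard, nsmul_eq_mul]
    push_cast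
    field_simp
    ring
  rw [← h9]
  refine Finset.sum_le_sum fun I _ => Finset.sum_le_sum fun I' _ => ?_
  rw [e2]
  exact e3 I I'

end Pool.Agent.Lib.SDF2
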