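import Pool.Agent.Lib.MP_678664_lc_h67.Mobius
import Pool.Agent.Lib.SDF.Base

/-!
Test functions of a design whose consistent choices have the same number of extensions
(`Ext`) and whose links are quasi-random (`Quasi`).
-/

set_option autoImplicit false

namespace Pool.Agent.Lib.SDF2

open Finset
open Pool.Agent.Lib.MP_678664_lc_h67 (Cons moeb)

variable {κ S : Type*} [Fintype κ] [DecidableEq κ] [Fintype S]

open Classical in
/-- Density of the uniform distribution on consistent choices on `I`. -/
noncomputable def rho (ok : κ → κ → S → S → Prop) (R : ℕ → ℝ) (I : Finset κ) (z : κ → S) : ℝ :=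
  if Cons ok I z then R I.card else 0

/-- The pure component of the densities on `J`. -/
noncomputable def pureComp (ok : κ → κ → S → S → Prop) (R : ℕ → ℝ) (u : ℕ) (J : Finset κ)
    (z : κ → S) : ℝ :=
  if J.card < u then moeb (fun I => rho ok R I z) J else 0

open Classical in
/-- The values at `x` which are compatible with `z` on `I`. -/
noncomputable def lk (ok : κ → κ → S → S → Prop) (I : Finset κ) (z : κ → S) (x : κ) : Finset S :=
  Finset.univ.filter fun s => ∀ w ∈ I, ok x w s (z w)

/-- The extension property of the design. -/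
def Ext (ok : κ → κ → S → S → Prop) (R : ℕ → ℝ) (u : ℕ) : Prop :=
  ∀ (I : Finset κ) (g : κ), g ∉ I → I.card + 1 < u → ∀ z : κ → S, Cons ok I z →
    ((lk ok I z g).card : ℝ) * R (I.card + 1) = Fintype.card S * R I.card

/-- The number of the extensions of a consistent choice on `i` coordinates. -/
noncomputable def Num (S : Type*) [Fintype S] (R : ℕ → ℝ) (i : ℕ) : ℝ :=
  Fintype.card S * R i / R (i + 1)

open Classical in
/-- The links of the consistent choices on at most `2 * t - 2` coordinates are quasi-random. -/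
def Quasi (ok : κ → κ → S → S → Prop) (R : ℕ → ℝ) (t : ℕ) (η : ℝ) : Prop :=
  ∀ (I : Finset κ) (x y : κ), x ∉ I → y ∉ I → x ≠ y → I.card + 2 ≤ 2 * t →
    ∀ z : κ → S, Cons ok I z → ∀ f : S → ℝ, ∑ s ∈ lk ok I z x, f s = 0 →
      ∑ s' ∈ lk ok I z y, (∑ s ∈ (lk ok I z x).filter (fun s => ok x y s s'), f s) ^ 2
        ≤ η * Num S R (I.card + 1) ^ 2 * ∑ s ∈ lk ok I z x, f s ^ 2

/-- The function depends only on the coordinates in `I`. -/
def DepOn (I : Finset κ) (f : (κ → S) → ℝ) : Prop :=
  ∀ z z' : κ → S, (∀ v ∈ I, z v = z' v) → f z = f z'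

/-- A function of the coordinates in `I`, orthogonal (with respect to the density of `I`) to the
functions of the coordinates in a proper subset of `I`. -/
def IsPure (ok : κ → κ → S → S → Prop) (R : ℕ → ℝ) (I : Finset κ) (f : (κ → S) → ℝ) : Prop :=
  DepOn I f ∧ ∀ I' : Finset κ, I' ⊂ I → ∀ h : (κ → S) → ℝ, DepOn I' h →
    ∑ z, rho ok R I z * (f z * h z) = 0

/-- The conditional expectation of `f` with respect to the value at `x`, given a consistent choice
on `D`. -/
noncomputable def Phi (ok : κ → κ → S → S → Prop) (R : ℕ → ℝ) (x : κ) (D : Finset κ)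
    (f : (κ → S) → ℝ) (z : κ → S) : ℝ :=
  (Num S R D.card)⁻¹ * ∑ s ∈ lk ok D z x, f (Function.update z x s)

end Pool.Agent.Lib.SDF2
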