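import Pool.Agent.Lib.SDF2.QDefs

/-!
Row Q3: lower bound for the number of unit vectors.
-/

set_option autoImplicit false

namespace Pool.Agent.Lib.SDF2

open Finset

private theorem card_sq_eq_le {p : ℕ} [Fact p.Prime] (c : ZMod p) :
    Nat.card {t : ZMod p // t ^ 2 = c} ≤ 2 := by
  classical
  by_cases h : ∃ t : ZMod p, t ^ 2 = c
  · obtain ⟨t, ht⟩ := h
    have h1 : Nat.card {s : ZMod p // s ^ 2 = c} ≤ Nat.card ({t, -t} : Finset (ZMod p)) := by
      refine Nat.card_le_card_of_injective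
        (fun s => (⟨s.1, ?_⟩ : ({t, -t} : Finset (ZMod p)))) ?_
      · have h2 : s.1 ^ 2 = t ^ 2 := by rw [s.2, ht]
        rcases sq_eq_sq_iff_eq_or_eq_neg.1 h2 with h3 | h3
        · rw [h3]; exact Finset.mem_insert_self _ _
        · rw [h3]; exact Finset.mem_insert_of_mem (Finset.mem_singleton_self _)
      · intro a b hab
        have h4 := congrArg (fun z : ({t, -t} : Finset (ZMod p)) => (z : ZMod p)) hab
        exact Subtype.ext h4
    refine h1.trans ?_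
    rw [Nat.card_eq_fintype_card, Fintype.card_coe]
    exact Finset.card_le_two
  · have : IsEmpty {t : ZMod p // t ^ 2 = c} := ⟨fun s => h ⟨s.1, s.2⟩⟩
    rw [Nat.card_of_isEmpty]
    exact Nat.zero_le _

private theorem card_sq_ne_ge {p : ℕ} [Fact p.Prime] (c : ZMod p) :
    p - 2 ≤ Nat.card {t : ZMod p // t ^ 2 ≠ c} := by
  classical
  have h1 := card_sq_eq_le c
  rw [Nat.card_eq_fintype_card] at h1 ⊢
  have h2 := Fintype.card_subtype_compl (fun t : ZMod p => t ^ 2 = c)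
  rw [ZMod.card] at h2
  have h3 : Fintype.card {t : ZMod p // t ^ 2 ≠ c} = p - Fintype.card {t : ZMod p // t ^ 2 = c} := h2
  rw [h3]
  omega

private theorem exists_conic {p : ℕ} [Fact p.Prime] (hp : p ≠ 2) (δ c : ZMod p) (hδ : δ ≠ 0) :
    ∃ x y : ZMod p, x ^ 2 + δ * y ^ 2 = c := by
  have hodd : p % 2 = 1 := (Fact.out : p.Prime).mod_two_eq_one_iff_ne_two.2 hp
  obtain ⟨a, b, hab⟩ := FiniteField.exists_root_sum_quadratic (R := ZMod p)
    (f := Polynomial.X ^ 2 - Polynomial.C c) (g := Polynomial.C δ * Polynomial.X ^ 2)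
    (Polynomial.degree_X_pow_sub_C (by norm_num) c) (by
      rw [Polynomial.degree_C_mul hδ, Polynomial.degree_X_pow]; rfl)
    (by rw [ZMod.card]; exact hodd)
  refine ⟨a, b, ?_⟩
  simp only [Polynomial.eval_sub, Polynomial.eval_pow, Polynomial.eval_X, Polynomial.eval_C,
    Polynomial.eval_mul] at hab
  linear_combination hab

/-- A conic.  `p` odd: there is a solution `(x0, y0)` (`ZMod` pigeonhole:
`FiniteField.exists_root_sum_quadratic`, or count the values of `x ^ 2` and `c - δ * y ^ 2`); for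
every `t` with `1 + δ * t ^ 2 ≠ 0` (at most two `t` are excluded) the point
`(x0 - r, y0 - r * t)`, `r = 2 * (x0 + δ * t * y0) / (1 + δ * t ^ 2)`, is a solution, and
`t ↦ point` is injective (`(x0, y0)` is the point of at most one `t` as `c ≠ 0`). -/
theorem conic_card {p : ℕ} [Fact p.Prime] (hp : p ≠ 2) (δ c : ZMod p) (hδ : δ ≠ 0)
    (hc : c ≠ 0) :
    p - 2 ≤ Nat.card {x : ZMod p × ZMod p // x.1 ^ 2 + δ * x.2 ^ 2 = c} := by
  classical
  obtain ⟨x₀, y₀, h0⟩ := exists_conic hp δ c hδ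
  have hpr : p.Prime := Fact.out
  have h2 : (2 : ZMod p) ≠ 0 := by
    intro h
    have h3 : ((2 : ℕ) : ZMod p) = 0 := by exact_mod_cast h
    rw [ZMod.natCast_eq_zero_iff] at h3
    exact hp ((Nat.prime_dvd_prime_iff_eq hpr Nat.prime_two).1 h3)
  refine (card_sq_ne_ge (-δ⁻¹)).trans ?_
  have hden : ∀ t : ZMod p, t ^ 2 ≠ -δ⁻¹ → 1 + δ * t ^ 2 ≠ 0 := by
    intro t ht h1
    apply ht
    have h3 : δ * t ^ 2 = -1 := by linear_combination h1
    have h4 : t ^ 2 = δ⁻¹ * (δ * t ^ 2) := by rw [inv_mul_cancel_left₀ hδ]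
    rw [h4, h3]; ring
  refine Nat.card_le_card_of_injective
    (fun t : {t : ZMod p // t ^ 2 ≠ -δ⁻¹} =>
      (⟨(x₀ - 2 * (x₀ + δ * t.1 * y₀) / (1 + δ * t.1 ^ 2),
        y₀ - 2 * (x₀ + δ * t.1 * y₀) / (1 + δ * t.1 ^ 2) * t.1), ?_⟩ :
        {x : ZMod p × ZMod p // x.1 ^ 2 + δ * x.2 ^ 2 = c})) ?_
  · have h1 := hden t.1 t.2
    show (x₀ - 2 * (x₀ + δ * t.1 * y₀) / (1 + δ * t.1 ^ 2)) ^ 2 +
      δ * (y₀ - 2 * (x₀ + δ * t.1 * y₀) / (1 + δ * t.1 ^ 2) * t.1) ^ 2 = c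
    have h3 : 2 * (x₀ + δ * t.1 * y₀) / (1 + δ * t.1 ^ 2) * (1 + δ * t.1 ^ 2) =
        2 * (x₀ + δ * t.1 * y₀) := div_mul_cancel₀ _ h1
    generalize 2 * (x₀ + δ * t.1 * y₀) / (1 + δ * t.1 ^ 2) = r at h3
    linear_combination h0 + r * h3
  · intro s t hst
    have h1 := hden t.1 t.2
    have h1' := hden s.1 s.2
    have h3 := congrArg (fun z : {x : ZMod p × ZMod p // x.1 ^ 2 + δ * x.2 ^ 2 = c} => z.1.1) hst
    have h4 := congrArg (fun z : {x : ZMod p × ZMod p // x.1 ^ 2 + δ * x.2 ^ 2 = c} => z.1.2) hst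
    simp only at h3 h4
    have h5 : 2 * (x₀ + δ * s.1 * y₀) / (1 + δ * s.1 ^ 2) =
        2 * (x₀ + δ * t.1 * y₀) / (1 + δ * t.1 ^ 2) := by linear_combination -h3
    rw [h5] at h4
    apply Subtype.ext
    by_cases hr : 2 * (x₀ + δ * t.1 * y₀) / (1 + δ * t.1 ^ 2) = 0
    · have h6 : x₀ + δ * t.1 * y₀ = 0 := by
        rcases div_eq_zero_iff.1 hr with h7 | h7
        · exact (mul_eq_zero.1 h7).resolve_left h2
        · exact absurd h7 h1
      have h6' : x₀ + δ * s.1 * y₀ = 0 := by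
        rw [hr] at h5
        rcases div_eq_zero_iff.1 h5 with h7 | h7
        · exact (mul_eq_zero.1 h7).resolve_left h2
        · exact absurd h7 h1'
      have hy : y₀ ≠ 0 := by
        rintro rfl
        apply hc
        rw [mul_zero, add_zero] at h6
        rw [← h0, h6]; ring
      have h8 : δ * y₀ * (s.1 - t.1) = 0 := by linear_combination h6' - h6
      rcases mul_eq_zero.1 h8 with h9 | h9
      · exact absurd h9 (mul_ne_zero hδ hy)
      · exact sub_eq_zero.1 h9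
    · have h6 : 2 * (x₀ + δ * t.1 * y₀) / (1 + δ * t.1 ^ 2) * (s.1 - t.1) = 0 := by
        linear_combination -h4
      exact sub_eq_zero.1 ((mul_eq_zero.1 h6).resolve_left hr)

/-- Induction on `j`: fix the first coordinate `x 0` with `x 0 ^ 2 ≠ c` (at most two values are
excluded). -/
theorem quadric_card {p : ℕ} [Fact p.Prime] (hp : p ≠ 2) (δ : ZMod p) (hδ : δ ≠ 0) (j : ℕ)
    (c : ZMod p) (hc : c ≠ 0) :
    (p - 2) ^ (j + 1) ≤ Nat.card {x : (Fin (j + 1) → ZMod p) × ZMod p //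
      ∑ i, x.1 i ^ 2 + δ * x.2 ^ 2 = c} := by
  classical
  induction j generalizing c with
  | zero =>
    rw [zero_add, pow_one]
    refine (conic_card hp δ c hδ hc).trans ?_
    refine Nat.card_le_card_of_injective
      (fun x : {x : ZMod p × ZMod p // x.1 ^ 2 + δ * x.2 ^ 2 = c} =>
        (⟨((fun _ => x.1.1), x.1.2), ?_⟩ : {x : (Fin (0 + 1) → ZMod p) × ZMod p //
          ∑ i, x.1 i ^ 2 + δ * x.2 ^ 2 = c})) ?_
    · have := x.2
      simpa using this
    · intro x y hxy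
      have h1 := congrArg (fun z : {x : (Fin (0 + 1) → ZMod p) × ZMod p //
          ∑ i, x.1 i ^ 2 + δ * x.2 ^ 2 = c} => z.1.1 0) hxy
      have h2 := congrArg (fun z : {x : (Fin (0 + 1) → ZMod p) × ZMod p //
          ∑ i, x.1 i ^ 2 + δ * x.2 ^ 2 = c} => z.1.2) hxy
      exact Subtype.ext (Prod.ext h1 h2)
  | succ j ih =>
    have h1 : Nat.card (Σ a : {a : ZMod p // a ^ 2 ≠ c},
        {x : (Fin (j + 1) → ZMod p) × ZMod p // ∑ i, x.1 i ^ 2 + δ * x.2 ^ 2 = c - a.1 ^ 2}) ≤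
        Nat.card {x : (Fin (j + 1 + 1) → ZMod p) × ZMod p //
          ∑ i, x.1 i ^ 2 + δ * x.2 ^ 2 = c} := by
      refine Nat.card_le_card_of_injective (fun z => (⟨(Fin.cons z.1.1 z.2.1.1, z.2.1.2), ?_⟩ :
        {x : (Fin (j + 1 + 1) → ZMod p) × ZMod p //
          ∑ i, x.1 i ^ 2 + δ * x.2 ^ 2 = c})) ?_
      · have h2 := z.2.2
        rw [Fin.sum_univ_succ]
        simp only [Fin.cons_zero, Fin.cons_succ]
        linear_combination h2
      · rintro ⟨⟨a, ha⟩, ⟨⟨x, u⟩, hx⟩⟩ ⟨⟨b, hb⟩, ⟨⟨y, v⟩, hy⟩⟩ h3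
        have h4 := congrArg Subtype.val h3
        have h5 : (Fin.cons a x : Fin (j + 1 + 1) → ZMod p) = Fin.cons b y := congrArg Prod.fst h4
        have h6 : u = v := congrArg Prod.snd h4
        obtain ⟨h7, h8⟩ := Fin.cons_injective2 h5
        subst h7 h8 h6
        rfl
    refine le_trans ?_ h1
    rw [Nat.card_sigma]
    have h2 : ∀ a : {a : ZMod p // a ^ 2 ≠ c}, (p - 2) ^ (j + 1) ≤
        Nat.card {x : (Fin (j + 1) → ZMod p) × ZMod p //
          ∑ i, x.1 i ^ 2 + δ * x.2 ^ 2 = c - a.1 ^ 2} := fun a =>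
      ih (c - a.1 ^ 2) (sub_ne_zero.2 (Ne.symm a.2))
    refine le_trans ?_ (Finset.sum_le_sum fun a _ => h2 a)
    rw [Finset.sum_const, smul_eq_mul, Finset.card_univ, ← Nat.card_eq_fintype_card, pow_succ,
      mul_comm]
    exact Nat.mul_le_mul_right _ (card_sq_ne_ge c)

/-- Map `x : (Fin (j + 1) → ZMod p) × ZMod p` to the vector with `a` zeros, `x.1`, `x.2`,
`m = a + (j + 1)`. -/
theorem Nq_lower {p m : ℕ} [Fact p.Prime] (hp : p ≠ 2) (δ : ZMod p) (hδ : δ ≠ 0) (a : ℕ)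
    (ha : a < m) : (p - 2) ^ (m - a) ≤ Nq p m δ a := by
  classical
  obtain ⟨j, rfl⟩ : ∃ j, m = a + (j + 1) := ⟨m - a - 1, by omega⟩
  rw [Nat.add_sub_cancel_left]
  refine (quadric_card hp δ hδ j 1 one_ne_zero).trans ?_
  unfold Nq
  refine Nat.card_le_card_of_injective (fun x : {x : (Fin (j + 1) → ZMod p) × ZMod p //
      ∑ i, x.1 i ^ 2 + δ * x.2 ^ 2 = 1} =>
      (⟨Fin.snoc (α := fun _ => ZMod p) (Fin.append (fun _ : Fin a => (0 : ZMod p)) x.1.1) x.1.2,
        ?_, ?_⟩ :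
      {x : Fin (a + (j + 1) + 1) → ZMod p // B δ x x = 1 ∧
        ∀ i : Fin (a + (j + 1)), (i : ℕ) < a → x i.castSucc = 0})) ?_
  · unfold B
    simp only [Fin.snoc_castSucc, Fin.snoc_last]
    rw [Fin.sum_univ_add]
    simp only [Fin.append_left, Fin.append_right, mul_zero, Finset.sum_const_zero, zero_add]
    refine Eq.trans ?_ x.2
    congr 1
    · exact Finset.sum_congr rfl fun i _ => by ring
    · ring
  · intro i hi
    rw [Fin.snoc_castSucc]
    have h1 : i = Fin.castAdd (j + 1) ⟨(i : ℕ), hi⟩ := Fin.ext rfl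
    rw [h1, Fin.append_left]
  · intro x y hxy
    have h1 := congrArg Subtype.val hxy
    have h2 : ∀ i, (Fin.snoc (α := fun _ => ZMod p)
        (Fin.append (fun _ : Fin a => (0 : ZMod p)) x.1.1) x.1.2 :
          Fin (a + (j + 1) + 1) → ZMod p) i =
        (Fin.snoc (α := fun _ => ZMod p)
        (Fin.append (fun _ : Fin a => (0 : ZMod p)) y.1.1) y.1.2 :
          Fin (a + (j + 1) + 1) → ZMod p) i := fun i => congrFun h1 i
    apply Subtype.ext
    apply Prod.ext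
    · funext i
      have h3 := h2 (Fin.natAdd a i).castSucc
      rwa [Fin.snoc_castSucc, Fin.snoc_castSucc, Fin.append_right, Fin.append_right] at h3
    · have h3 := h2 (Fin.last _)
      rwa [Fin.snoc_last, Fin.snoc_last] at h3

end Pool.Agent.Lib.SDF2
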