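import Pool.Agent.Lib.SDF2.Q2

/-!
Row Q4: the number of the extensions of a consistent choice.
-/

set_option autoImplicit false

namespace Pool.Agent.Lib.SDF2

open Finset
open Pool.Agent.Lib.MP_678664_lc_h67 (Cons)

private theorem B_single_h48 {p m : ℕ} (δ : ZMod p) (j : Fin m) (v : Fin (m + 1) → ZMod p) :
    B δ (Pi.single j.castSucc 1) v = v j.castSucc := by
  unfold B
  rw [Finset.sum_eq_single j]
  · rw [Pi.single_eq_same, one_mul, Pi.single_eq_of_ne (Fin.castSucc_lt_last j).ne', zero_mul,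
      mul_zero, add_zero]
  · intro i _ hi
    rw [Pi.single_eq_of_ne (fun h => hi (Fin.castSucc_injective m h)), zero_mul]
  · exact fun h => absurd (mem_univ j) h

/-- Let `x i = z (e i)` for `e : Fin I.card ≃ I` and `y i` the `i`-th unit vector of the standard
basis (`I.card ≤ m`, so these have norm `1`); an isometry `g` with `g (x i) = y i` maps
`lk (okQ δ) I z v` bijectively to the unit vectors whose first `I.card` coordinates are `0`. -/
theorem q_card_lk {κ : Type*} [Fintype κ] [DecidableEq κ] {p m : ℕ} [Fact p.Prime] (hp : p ≠ 2)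
    (δ : ZMod p) (I : Finset κ) (hI : I.card ≤ m) (z : κ → Unt p m δ)
    (hz : Cons (okQ δ) I z) (v : κ) : (lk (okQ δ) I z v).card = Nq p m δ I.card := by
  classical
  obtain ⟨e⟩ : Nonempty (I ≃ Fin I.card) := ⟨I.equivFin⟩
  obtain ⟨c, hc⟩ : ∃ c : I → Fin m, c = fun w => Fin.castLE hI (e w) := ⟨_, rfl⟩
  obtain ⟨y, hy⟩ : ∃ y : κ → Fin (m + 1) → ZMod p,
      ∀ w (h : w ∈ I), y w = Pi.single (c ⟨w, h⟩).castSucc 1 :=
    ⟨fun w => if h : w ∈ I then Pi.single (c ⟨w, h⟩).castSucc 1 else 0, fun w h => dif_pos h⟩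
  have hyB : ∀ w (h : w ∈ I) t, B δ (y w) t = t (c ⟨w, h⟩).castSucc := by
    intro w h t
    rw [hy w h, B_single_h48]
  obtain ⟨g, hg, hgI⟩ := exists_isometry hp δ (fun w => (z w).1) y I (fun i _ => (z i).2)
    (fun i hi => by rw [hyB i hi, hy i hi, Pi.single_eq_same])
    (fun i hi j hj hij => hz i hi j hj hij)
    (fun i hi j hj hij => by
      rw [hyB i hi, hy j hj]
      refine Pi.single_eq_of_ne (fun h => hij ?_) _
      have h1 := Fin.castSucc_injective m h
      rw [hc] at h1
      have h2 := e.injective (Fin.castLE_injective hI h1)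
      exact congrArg Subtype.val h2)
  have hg' : ∀ a b, B δ (g.symm a) b = B δ a (g b) := by
    intro a b
    rw [← hg, LinearEquiv.apply_symm_apply]
  -- orthogonality to the `z w`
  have key : ∀ t : Fin (m + 1) → ZMod p, (∀ w ∈ I, B δ t (z w).1 = 0) ↔
      ∀ i : Fin m, (i : ℕ) < I.card → g t i.castSucc = 0 := by
    intro t
    constructor
    · intro h i hi
      have hw := (e.symm ⟨i, hi⟩).2
      have h1 : c ⟨(e.symm ⟨i, hi⟩).1, hw⟩ = i := by
        rw [hc]
        change Fin.castLE hI (e (e.symm ⟨i, hi⟩)) = i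
        rw [Equiv.apply_symm_apply]
        rfl
      have h2 := hyB _ hw (g t)
      rw [h1] at h2
      rw [← h2, ← hgI _ hw, hg, B_comm]
      exact h _ hw
    · intro h w hw
      rw [B_comm, ← hg, hgI w hw, hyB w hw]
      refine h _ ?_
      rw [hc]
      exact (e ⟨w, hw⟩).2
  unfold Nq
  rw [← Nat.card_eq_finsetCard]
  refine Nat.card_congr ⟨fun s => ⟨g s.1.1, ?_, ?_⟩, fun t => ⟨⟨g.symm t.1, ?_⟩, ?_⟩, ?_, ?_⟩
  · rw [hg]
    exact s.1.2
  · have h := s.2
    simp only [lk, mem_filter, mem_univ, true_and] at h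
    exact (key s.1.1).1 h
  · rw [← hg, LinearEquiv.apply_symm_apply]
    exact t.2.1
  · simp only [lk, mem_filter, mem_univ, true_and]
    refine (key (g.symm t.1)).2 ?_
    rw [LinearEquiv.apply_symm_apply]
    exact t.2.2
  · intro s
    refine Subtype.ext (Subtype.ext ?_)
    exact g.symm_apply_apply _
  · intro t
    refine Subtype.ext ?_
    exact g.apply_symm_apply _

end Pool.Agent.Lib.SDF2
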