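import Pool.Agent.Lib.SDF2.Q5

/-!
Row Q6: the links are quasi-random.
-/

set_option autoImplicit false

namespace Pool.Agent.Lib.SDF2

open Finset
open Pool.Agent.Lib.MP_678664_lc_h67 (Cons)

private theorem mem_lk' {κ : Type*} [Fintype κ] [DecidableEq κ] {p m : ℕ} [Fact p.Prime]
    {δ : ZMod p} {I : Finset κ} {z : κ → Unt p m δ} {x : κ} {s : Unt p m δ} :
    s ∈ lk (okQ δ) I z x ↔ ∀ w ∈ I, B δ s.1 (z w).1 = 0 := by
  classical
  rw [lk, mem_filter]
  simp only [mem_univ, true_and, okQ]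

open Classical in
private theorem cnt {κ : Type*} {p m : ℕ} [Fact p.Prime] (δ : ZMod p) (I : Finset κ)
    (z : κ → Unt p m δ) (s s' : Fin (m + 1) → ZMod p) :
    ∑ v ∈ Finset.univ.filter (fun v : Fin (m + 1) → ZMod p => ∀ w ∈ I, B δ v (z w).1 = 0),
      (if B δ s v = 0 then (1 : ℝ) else 0) * (if B δ s' v = 0 then 1 else 0)
    = Nat.card {v : Fin (m + 1) → ZMod p // (∀ w ∈ I, B δ v (z w).1 = 0) ∧ B δ v s = 0 ∧
      B δ v s' = 0} := by
  rw [Nat.card_eq_fintype_card, Fintype.card_subtype, sum_filter, ← Finset.sum_boole]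
  refine sum_congr rfl fun v _ => ?_
  rw [B_comm δ s v, B_comm δ s' v]
  have hc : ∀ a b c : Prop, (if a then (if b then (1 : ℝ) else 0) * (if c then 1 else 0) else 0) =
      if a ∧ b ∧ c then 1 else 0 := by
    intro a b c
    by_cases h1 : a <;> by_cases h2 : b <;> by_cases h3 : c <;> simp [h1, h2, h3]
  convert hc _ _ _

private theorem B_neg {p m : ℕ} (δ : ZMod p) (x y : Fin (m + 1) → ZMod p) :
    B δ x (-y) = - B δ x y := by
  have h1 : -y = (-1 : ZMod p) • y := by rw [neg_smul, one_smul]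
  rw [h1, B_comm, B_smul, B_comm δ y x, neg_one_mul]

private theorem ne_neg {p m : ℕ} [Fact p.Prime] (hp : p ≠ 2) {δ : ZMod p} (s : Unt p m δ) :
    s.1 ≠ - s.1 := by
  intro h
  have h1 : B δ s.1 s.1 = - B δ s.1 s.1 := by
    rw [← B_neg, ← h]
  rw [s.2] at h1
  have h2 : (2 : ZMod p) = 0 := by
    have h3 : (1 : ZMod p) + 1 = 0 := eq_neg_iff_add_eq_zero.1 h1
    rw [← h3]
    norm_num
  have h4 : ((2 : ℕ) : ZMod p) = 0 := by exact_mod_cast h2
  rw [ZMod.natCast_eq_zero_iff] at h4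
  have h5 := (Nat.prime_dvd_prime_iff_eq (Fact.out : p.Prime) Nat.prime_two).1 h4
  exact hp h5

open Classical in
private theorem pair_count {κ : Type*} [Fintype κ] [DecidableEq κ] {p m : ℕ} [Fact p.Prime]
    (hp : p ≠ 2) (δ : ZMod p) (hδ : δ ≠ 0) (I : Finset κ) (hI : I.card + 2 ≤ m)
    (z : κ → Unt p m δ) (hz : Cons (okQ δ) I z) (x : κ) (s s' : Unt p m δ)
    (hs : s ∈ lk (okQ δ) I z x) (hs' : s' ∈ lk (okQ δ) I z x) :
    ∑ v ∈ Finset.univ.filter (fun v : Fin (m + 1) → ZMod p => ∀ w ∈ I, B δ v (z w).1 = 0),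
      (if B δ s.1 v = 0 then (1 : ℝ) else 0) * (if B δ s'.1 v = 0 then 1 else 0)
    = (p : ℝ) ^ (m - 1 - I.card) + ((p : ℝ) - 1) * (p : ℝ) ^ (m - 1 - I.card) *
      ((if s' = s then 1 else 0) + (if s'.1 = - s.1 then 1 else 0)) := by
  have e0 : ∑ v ∈ Finset.univ.filter
      (fun v : Fin (m + 1) → ZMod p => ∀ w ∈ I, B δ v (z w).1 = 0),
      (if B δ s.1 v = 0 then (1 : ℝ) else 0) * (if B δ s'.1 v = 0 then 1 else 0) =
      (Nat.card {v : Fin (m + 1) → ZMod p // (∀ w ∈ I, B δ v (z w).1 = 0) ∧ B δ v s.1 = 0 ∧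
      B δ v s'.1 = 0} : ℝ) := by
    convert cnt δ I z s.1 s'.1
  rw [e0]
  rw [mem_lk'] at hs hs'
  have hpow : (p : ℝ) ^ (m - I.card) = p * (p : ℝ) ^ (m - 1 - I.card) := by
    rw [← pow_succ']
    congr 1
    omega
  by_cases h1 : s' = s
  · rw [if_pos h1, h1, if_neg (ne_neg hp s)]
    have h2 := card_orth_one δ I (by omega) z hz s hs
    simp only [and_self]
    rw [h2, Nat.cast_pow, hpow]
    ring
  · by_cases h2 : s'.1 = - s.1
    · rw [if_neg h1, if_pos h2]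
      have h3 := card_orth_one δ I (by omega) z hz s hs
      simp only [h2, B_neg, neg_eq_zero, and_self]
      rw [h3, Nat.cast_pow, hpow]
      ring
    · rw [if_neg h1, if_neg h2]
      have h3 := card_orth_two δ hδ I hI z hz s s' hs hs' (fun h => h1 (Subtype.ext h)) h2
      rw [h3, Nat.cast_pow]
      ring

open Classical in
/-- Double counting over the vectors of the link space.  Expand the square and exchange the sums:
the number of the `v` for `x`, `x'` is `p ^ (m - 1 - a)`, or `p ^ (m - a)` if `x' = x` or `x' = - x`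
(`card_orth_one`, `card_orth_two`); finally `f x * f (- x) ≤ (f x ^ 2 + f (- x) ^ 2) / 2`. -/
theorem q_all {κ : Type*} [Fintype κ] [DecidableEq κ] {p m : ℕ} [Fact p.Prime] (hp : p ≠ 2)
    (δ : ZMod p) (hδ : δ ≠ 0) (I : Finset κ) (hI : I.card + 2 ≤ m) (z : κ → Unt p m δ)
    (hz : Cons (okQ δ) I z) (x : κ) (f : Unt p m δ → ℝ) (hf : ∑ s ∈ lk (okQ δ) I z x, f s = 0) :
    ∑ v ∈ Finset.univ.filter (fun v : Fin (m + 1) → ZMod p => ∀ w ∈ I, B δ v (z w).1 = 0),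
        (∑ s ∈ (lk (okQ δ) I z x).filter (fun s => B δ s.1 v = 0), f s) ^ 2
      ≤ 2 * (p - 1) * p ^ (m - 1 - I.card) * ∑ s ∈ lk (okQ δ) I z x, f s ^ 2 := by
  obtain ⟨V, hV⟩ : ∃ V, V = Finset.univ.filter
    (fun v : Fin (m + 1) → ZMod p => ∀ w ∈ I, B δ v (z w).1 = 0) := ⟨_, rfl⟩
  obtain ⟨L, hL⟩ : ∃ L, L = lk (okQ δ) I z x := ⟨_, rfl⟩
  obtain ⟨q, hq⟩ : ∃ q : ℝ, q = (p : ℝ) ^ (m - 1 - I.card) := ⟨_, rfl⟩
  have hq0 : 0 ≤ q := by rw [hq]; positivity
  have hp1 : (1 : ℝ) ≤ p := by exact_mod_cast (Fact.out : p.Prime).one_le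
  have hpair : ∀ s ∈ L, ∀ s' ∈ L, ∑ v ∈ V, (if B δ s.1 v = 0 then (1 : ℝ) else 0) *
      (if B δ s'.1 v = 0 then 1 else 0) = q + ((p : ℝ) - 1) * q *
      ((if s' = s then 1 else 0) + (if s'.1 = - s.1 then 1 else 0)) := by
    intro s hs s' hs'
    rw [hL] at hs hs'
    rw [hV, hq]
    exact pair_count hp δ hδ I hI z hz x s s' hs hs'
  rw [← hV, ← hL, ← hq]
  rw [← hL] at hf
  -- expand the square
  have h1 : ∑ v ∈ V, (∑ s ∈ L.filter (fun s => B δ s.1 v = 0), f s) ^ 2 =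
      ∑ s ∈ L, ∑ s' ∈ L, f s * f s' * ∑ v ∈ V, (if B δ s.1 v = 0 then (1 : ℝ) else 0) *
      (if B δ s'.1 v = 0 then 1 else 0) := by
    have h2 : ∀ v ∈ V, (∑ s ∈ L.filter (fun s => B δ s.1 v = 0), f s) ^ 2 =
        ∑ s ∈ L, ∑ s' ∈ L, f s * f s' * ((if B δ s.1 v = 0 then (1 : ℝ) else 0) *
          (if B δ s'.1 v = 0 then 1 else 0)) := by
      intro v _
      rw [sum_filter, pow_two, sum_mul_sum]
      refine sum_congr rfl fun s _ => sum_congr rfl fun s' _ => ?_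
      split_ifs <;> ring
    rw [sum_congr rfl h2, sum_comm]
    refine sum_congr rfl fun s _ => ?_
    rw [sum_comm]
    refine sum_congr rfl fun s' _ => ?_
    rw [mul_sum]
  have h3 : ∑ s ∈ L, ∑ s' ∈ L, f s * f s' * ∑ v ∈ V, (if B δ s.1 v = 0 then (1 : ℝ) else 0) *
      (if B δ s'.1 v = 0 then 1 else 0) = q * (∑ s ∈ L, f s) ^ 2 + ((p : ℝ) - 1) * q *
        (∑ s ∈ L, f s ^ 2 + ∑ s ∈ L, ∑ s' ∈ L, if s'.1 = - s.1 then f s * f s' else 0) := by
    have h4 : ∀ s ∈ L, ∑ s' ∈ L, f s * f s' * ∑ v ∈ V, (if B δ s.1 v = 0 then (1 : ℝ) else 0) *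
        (if B δ s'.1 v = 0 then 1 else 0) = q * (f s * ∑ s' ∈ L, f s') + ((p : ℝ) - 1) * q *
          (f s ^ 2 + ∑ s' ∈ L, if s'.1 = - s.1 then f s * f s' else 0) := by
      intro s hs
      have h5 : ∀ s' ∈ L, f s * f s' * ∑ v ∈ V, (if B δ s.1 v = 0 then (1 : ℝ) else 0) *
          (if B δ s'.1 v = 0 then 1 else 0) = q * (f s * f s') + ((p : ℝ) - 1) * q *
          ((if s' = s then f s * f s' else 0) + (if s'.1 = - s.1 then f s * f s' else 0)) := by
        intro s' hs'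
        rw [hpair s hs s' hs']
        split_ifs <;> ring
      rw [sum_congr rfl h5, sum_add_distrib, ← mul_sum, ← mul_sum, ← mul_sum, sum_add_distrib,
        sum_ite_eq' L s, if_pos hs, pow_two]
    rw [sum_congr rfl h4, sum_add_distrib, ← mul_sum, ← mul_sum, ← sum_mul, sum_add_distrib,
      pow_two]
  have h6 : ∑ s ∈ L, ∑ s' ∈ L, (if s'.1 = - s.1 then f s * f s' else 0) ≤ ∑ s ∈ L, f s ^ 2 := by
    have h7 : ∑ s ∈ L, ∑ s' ∈ L, (if s'.1 = - s.1 then f s ^ 2 else 0) ≤ ∑ s ∈ L, f s ^ 2 := by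
      refine sum_le_sum fun s _ => ?_
      rw [← sum_filter, sum_const, nsmul_eq_mul]
      have h8 : (L.filter fun s' => s'.1 = - s.1).card ≤ 1 := by
        rw [card_le_one]
        intro a ha b hb
        exact Subtype.ext ((mem_filter.1 ha).2.trans (mem_filter.1 hb).2.symm)
      have h9 : ((L.filter fun s' => s'.1 = - s.1).card : ℝ) ≤ 1 := by exact_mod_cast h8
      have h10 := sq_nonneg (f s)
      nlinarith
    have h8 : ∑ s ∈ L, ∑ s' ∈ L, (if s'.1 = - s.1 then f s' ^ 2 else 0) =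
        ∑ s ∈ L, ∑ s' ∈ L, (if s'.1 = - s.1 then f s ^ 2 else 0) := by
      rw [sum_comm]
      refine sum_congr rfl fun s _ => sum_congr rfl fun s' _ => ?_
      have h9 : s.1 = - s'.1 ↔ s'.1 = - s.1 := by
        constructor
        · intro h; rw [h, neg_neg]
        · intro h; rw [h, neg_neg]
      simp only [h9]
    have h9 : ∑ s ∈ L, ∑ s' ∈ L, (if s'.1 = - s.1 then f s * f s' else 0) ≤
        ∑ s ∈ L, ∑ s' ∈ L, (1 / 2 * (if s'.1 = - s.1 then f s ^ 2 else 0) +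
          1 / 2 * (if s'.1 = - s.1 then f s' ^ 2 else 0)) := by
      refine sum_le_sum fun s _ => sum_le_sum fun s' _ => ?_
      split_ifs
      · nlinarith [sq_nonneg (f s - f s')]
      · norm_num
    have h10 : ∑ s ∈ L, ∑ s' ∈ L, (1 / 2 * (if s'.1 = - s.1 then f s ^ 2 else 0) +
          1 / 2 * (if s'.1 = - s.1 then f s' ^ 2 else 0)) =
        1 / 2 * ∑ s ∈ L, ∑ s' ∈ L, (if s'.1 = - s.1 then f s ^ 2 else 0) +
        1 / 2 * ∑ s ∈ L, ∑ s' ∈ L, (if s'.1 = - s.1 then f s' ^ 2 else 0) := by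
      simp only [sum_add_distrib, ← mul_sum]
    rw [h10, h8] at h9
    linarith
  rw [h1, h3, hf]
  have h11 : 0 ≤ ((p : ℝ) - 1) * q := mul_nonneg (by linarith) hq0
  have h12 := mul_le_mul_of_nonneg_left h6 h11
  nlinarith

private theorem B_smul_right_h48 {p m : ℕ} (δ c : ZMod p) (x y : Fin (m + 1) → ZMod p) :
    B δ x (c • y) = c * B δ x y := by
  rw [B_comm, B_smul, B_comm]

open Classical in
/-- Scaling: `G v = (∑ over s ⟂ v of f s) ^ 2` satisfies `G (c • v) = G v`, `c ≠ 0`; each `v` is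
`c • y` with `c ≠ 0` and a unit vector `y` for at most two `c` (`c ^ 2 = B v v`). -/
theorem q_scale {κ : Type*} [Fintype κ] [DecidableEq κ] {p m : ℕ} [Fact p.Prime] (hp : p ≠ 2)
    (δ : ZMod p) (I : Finset κ) (z : κ → Unt p m δ) (x y : κ) (f : Unt p m δ → ℝ) :
    (p - 1) * ∑ s' ∈ lk (okQ δ) I z y,
        (∑ s ∈ (lk (okQ δ) I z x).filter (fun s => okQ δ x y s s'), f s) ^ 2
      ≤ 2 * ∑ v ∈ Finset.univ.filter (fun v : Fin (m + 1) → ZMod p => ∀ w ∈ I, B δ v (z w).1 = 0),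
        (∑ s ∈ (lk (okQ δ) I z x).filter (fun s => B δ s.1 v = 0), f s) ^ 2 := by
  obtain ⟨G, hG⟩ : ∃ G : (Fin (m + 1) → ZMod p) → ℝ, G = fun v =>
    (∑ s ∈ (lk (okQ δ) I z x).filter (fun s => B δ s.1 v = 0), f s) ^ 2 := ⟨_, rfl⟩
  obtain ⟨V, hV⟩ : ∃ V : Finset (Fin (m + 1) → ZMod p), V = Finset.univ.filter
    (fun v : Fin (m + 1) → ZMod p => ∀ w ∈ I, B δ v (z w).1 = 0) := ⟨_, rfl⟩
  have hG0 : ∀ v, 0 ≤ G v := fun v => by rw [hG]; exact sq_nonneg _
  have hGs : ∀ (c : ZMod p) (v : Fin (m + 1) → ZMod p), c ≠ 0 → G (c • v) = G v := by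
    intro c v hc
    rw [hG]
    change (∑ s ∈ (lk (okQ δ) I z x).filter (fun s => B δ s.1 (c • v) = 0), f s) ^ 2 =
      (∑ s ∈ (lk (okQ δ) I z x).filter (fun s => B δ s.1 v = 0), f s) ^ 2
    congr 2
    refine Finset.filter_congr fun s _ => ?_
    rw [B_smul_right_h48]
    exact ⟨fun h => (mul_eq_zero.1 h).resolve_left hc, fun h => by rw [h, mul_zero]⟩
  have e1 : ∑ s' ∈ lk (okQ δ) I z y,
      (∑ s ∈ (lk (okQ δ) I z x).filter (fun s => okQ δ x y s s'), f s) ^ 2 =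
      ∑ s' ∈ lk (okQ δ) I z y, G s'.1 := by
    rw [hG]
    refine sum_congr rfl fun s' _ => ?_
    change _ = (∑ s ∈ (lk (okQ δ) I z x).filter (fun s => B δ s.1 s'.1 = 0), f s) ^ 2
    congr 2
    ext s
    simp only [mem_filter]
    exact Iff.rfl
  have e2 : ∑ v ∈ Finset.univ.filter
      (fun v : Fin (m + 1) → ZMod p => ∀ w ∈ I, B δ v (z w).1 = 0),
        (∑ s ∈ (lk (okQ δ) I z x).filter (fun s => B δ s.1 v = 0), f s) ^ 2 = ∑ v ∈ V, G v := by
    rw [hG, hV]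
  rw [e1, e2]
  have hcard : ((((univ : Finset (ZMod p)).erase 0).card : ℕ) : ℝ) = p - 1 := by
    rw [card_erase_of_mem (mem_univ _), card_univ, ZMod.card,
      Nat.cast_pred (Fact.out : p.Prime).pos]
  have e3 : ((p : ℝ) - 1) * ∑ s' ∈ lk (okQ δ) I z y, G s'.1 =
      ∑ a ∈ ((univ : Finset (ZMod p)).erase 0) ×ˢ (lk (okQ δ) I z y), G (a.1 • a.2.1) := by
    rw [sum_product, ← hcard, ← nsmul_eq_mul, ← sum_const]
    refine sum_congr rfl fun c hc => sum_congr rfl fun s' _ => ?_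
    exact (hGs c s'.1 (ne_of_mem_erase hc)).symm
  have hmaps : ∀ a ∈ ((univ : Finset (ZMod p)).erase 0) ×ˢ (lk (okQ δ) I z y),
      a.1 • a.2.1 ∈ V := by
    intro a ha
    have h2 := (mem_product.1 ha).2
    simp only [lk, mem_filter, mem_univ, true_and] at h2
    rw [hV]
    simp only [mem_filter, mem_univ, true_and]
    intro w hw
    rw [B_smul]
    have h3 : B δ a.2.1 (z w).1 = 0 := h2 w hw
    rw [h3, mul_zero]
  rw [e3, ← sum_fiberwise_of_maps_to hmaps, mul_sum]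
  refine sum_le_sum fun v _ => ?_
  have hfib : (((univ : Finset (ZMod p)).erase 0 ×ˢ (lk (okQ δ) I z y)).filter
      (fun a => a.1 • a.2.1 = v)).card ≤ 2 := by
    rcases (((univ : Finset (ZMod p)).erase 0 ×ˢ (lk (okQ δ) I z y)).filter
      (fun a => a.1 • a.2.1 = v)).eq_empty_or_nonempty with h0 | ⟨a₀, ha₀⟩
    · rw [h0]
      exact Nat.zero_le 2
    · have hsq : ∀ a ∈ (((univ : Finset (ZMod p)).erase 0 ×ˢ (lk (okQ δ) I z y)).filter
          (fun a => a.1 • a.2.1 = v)), a.1 ^ 2 = B δ v v := by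
        intro a ha
        have h1 := (mem_filter.1 ha).2
        rw [← h1, B_smul, B_smul_right_h48, a.2.2, mul_one, sq]
      refine le_trans (card_le_card_of_injOn (t := {a₀.1, -a₀.1}) Prod.fst ?_ ?_) card_le_two
      · intro a ha
        have h1 : a.1 ^ 2 = a₀.1 ^ 2 := (hsq a ha).trans (hsq a₀ ha₀).symm
        rcases sq_eq_sq_iff_eq_or_eq_neg.1 h1 with h | h
        · exact mem_insert.2 (Or.inl h)
        · exact mem_insert.2 (Or.inr (mem_singleton.2 h))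
      · intro a ha b hb hab
        have ha' := mem_filter.1 (mem_coe.1 ha)
        have hb' := mem_filter.1 (mem_coe.1 hb)
        have hc : a.1 ≠ 0 := ne_of_mem_erase (mem_product.1 ha'.1).1
        have h1 : a.1 • a.2.1 = a.1 • b.2.1 := by
          rw [ha'.2, show a.1 = b.1 from hab, hb'.2]
        have h2 : a.2.1 = b.2.1 := smul_right_injective _ hc h1
        exact Prod.ext hab (Subtype.ext h2)
  calc ∑ a ∈ ((univ : Finset (ZMod p)).erase 0 ×ˢ (lk (okQ δ) I z y)).filter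
        (fun a => a.1 • a.2.1 = v), G (a.1 • a.2.1)
      = ∑ a ∈ ((univ : Finset (ZMod p)).erase 0 ×ˢ (lk (okQ δ) I z y)).filter
        (fun a => a.1 • a.2.1 = v), G v :=
        sum_congr rfl fun a ha => by rw [(mem_filter.1 ha).2]
    _ = ((((univ : Finset (ZMod p)).erase 0 ×ˢ (lk (okQ δ) I z y)).filter
        (fun a => a.1 • a.2.1 = v)).card : ℝ) * G v := by rw [sum_const, nsmul_eq_mul]
    _ ≤ 2 * G v := mul_le_mul_of_nonneg_right (by exact_mod_cast hfib) (hG0 v)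

end Pool.Agent.Lib.SDF2
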