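import Pool.Agent.Lib.SDF2.Q1
import Pool.Agent.Lib.SDF2.Q3
import Pool.Agent.Lib.SDF2.Q4
import Pool.Agent.Lib.SDF2.Q6

/-!
Row Q7: the quadratic design satisfies the hypotheses of the abstract theorem.
-/

set_option autoImplicit false

namespace Pool.Agent.Lib.SDF2

open Finset
open Pool.Agent.Lib.MP_678664_lc_h67 (Cons)

private theorem q7_Nq_pos {p m : ℕ} [Fact p.Prime] (hp : 3 < p) (δ : ZMod p) (hδ : δ ≠ 0)
    (a : ℕ) (ha : a < m) : 0 < Nq p m δ a :=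
  lt_of_lt_of_le (pow_pos (by omega) _) (Nq_lower (by omega) δ hδ a ha)

private theorem q7_card {p m : ℕ} [Fact p.Prime] (δ : ZMod p) [Fintype (Unt p m δ)] :
    Fintype.card (Unt p m δ) = Nq p m δ 0 := by
  rw [← Nat.card_eq_fintype_card, Nq]
  apply Nat.card_congr
  exact Equiv.subtypeEquivRight fun x => ⟨fun h => ⟨h, fun i hi => absurd hi (Nat.not_lt_zero _)⟩,
    fun h => h.1⟩

/-- `q_card_lk` and `RQ_(i+1) = RQ_i * Nq 0 / Nq i`; `Nq i > 0` for `i < m` by `Nq_lower`. -/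
theorem q_ext {κ : Type*} [Fintype κ] [DecidableEq κ] {p m : ℕ} [Fact p.Prime] (hp : 3 < p)
    (δ : ZMod p) (hδ : δ ≠ 0) : Ext (κ := κ) (okQ (m := m) δ) (RQ p m δ) (m + 1) := by
  intro I g _ hI z hz
  have hN : (Nq p m δ I.card : ℝ) ≠ 0 := by
    exact_mod_cast (q7_Nq_pos hp δ hδ I.card (by omega)).ne'
  rw [q_card_lk (by omega) δ I (by omega) z hz g, q7_card, RQ, Finset.prod_range_succ, ← RQ]
  field_simp

theorem q_pos {p m : ℕ} [Fact p.Prime] (hp : 3 < p) (δ : ZMod p) (hδ : δ ≠ 0) (i : ℕ)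
    (hi : i < m + 1) : 0 < RQ p m δ i := by
  rw [RQ]
  refine Finset.prod_pos fun j hj => ?_
  rw [Finset.mem_range] at hj
  have h1 : (0 : ℝ) < Nq p m δ j := by exact_mod_cast q7_Nq_pos hp δ hδ j (by omega)
  have h2 : (0 : ℝ) < Nq p m δ 0 := by exact_mod_cast q7_Nq_pos hp δ hδ 0 (by omega)
  exact div_pos h2 h1

private theorem q7b_Num {p m : ℕ} [Fact p.Prime] (hp : 3 < p) (δ : ZMod p) (hδ : δ ≠ 0)
    [Fintype (Unt p m δ)] (a : ℕ) (ha : a < m) :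
    Num (Unt p m δ) (RQ p m δ) a = Nq p m δ a := by
  have h0 : (Nq p m δ 0 : ℝ) ≠ 0 := by
    exact_mod_cast (q7_Nq_pos hp δ hδ 0 (by omega)).ne'
  have h1 : (Nq p m δ a : ℝ) ≠ 0 := by
    exact_mod_cast (q7_Nq_pos hp δ hδ a ha).ne'
  have h2 := (q_pos (m := m) hp δ hδ a (by omega)).ne'
  unfold Num
  rw [q7_card]
  have h3 : RQ p m δ (a + 1) = RQ p m δ a * ((Nq p m δ 0 : ℝ) / Nq p m δ a) := by
    rw [RQ, Finset.prod_range_succ, ← RQ]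
  rw [h3]
  field_simp

private theorem q7b_num {p m a : ℕ} (hp : 3 < p) (hpp : p.Prime) (ha : a + 2 ≤ m) {N : ℕ}
    (hN : (p - 2) ^ (m - (a + 1)) ≤ N) :
    4 * (p : ℝ) ^ (m - 1 - a) ≤ 4 * p / ((p : ℝ) - 2) ^ 2 * (N : ℝ) ^ 2 := by
  have h5 : 5 ≤ p := by
    rcases Nat.lt_or_ge p 5 with h | h
    · have : p = 4 := by omega
      subst this
      exact absurd hpp (by norm_num)
    · exact h
  have h5' : (5 : ℝ) ≤ p := by exact_mod_cast h5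
  have hc : ((p - 2 : ℕ) : ℝ) = (p : ℝ) - 2 := by
    push_cast [Nat.cast_sub (show 2 ≤ p by omega)]
    rfl
  have hN' : ((p : ℝ) - 2) ^ (m - (a + 1)) ≤ N := by
    rw [← hc]
    exact_mod_cast hN
  obtain ⟨n, hn⟩ : ∃ n, m - 1 - a = n + 1 := ⟨m - 2 - a, by omega⟩
  have hn' : m - (a + 1) = n + 1 := by omega
  rw [hn]
  rw [hn'] at hN'
  have hq : (0 : ℝ) < (p : ℝ) - 2 := by linarith
  have h6 : (p : ℝ) ≤ ((p : ℝ) - 2) ^ 2 := by nlinarith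
  have h7 : (p : ℝ) ^ n ≤ (((p : ℝ) - 2) ^ 2) ^ n := pow_le_pow_left₀ (by linarith) h6 n
  have h8 : (((p : ℝ) - 2) ^ (n + 1)) ^ 2 ≤ (N : ℝ) ^ 2 := pow_le_pow_left₀ (by positivity) hN' 2
  have h9 : ((p : ℝ) - 2) ^ 2 * (p : ℝ) ^ n ≤ (N : ℝ) ^ 2 := by
    refine le_trans ?_ h8
    calc ((p : ℝ) - 2) ^ 2 * (p : ℝ) ^ n ≤ ((p : ℝ) - 2) ^ 2 * (((p : ℝ) - 2) ^ 2) ^ n :=
          mul_le_mul_of_nonneg_left h7 (sq_nonneg _)
      _ = _ := by rw [← pow_mul, ← pow_add, ← pow_mul]; congr 1; ring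
  rw [div_mul_eq_mul_div, le_div_iff₀ (by positivity)]
  calc 4 * (p : ℝ) ^ (n + 1) * ((p : ℝ) - 2) ^ 2 =
        4 * p * (((p : ℝ) - 2) ^ 2 * (p : ℝ) ^ n) := by ring
    _ ≤ 4 * p * (N : ℝ) ^ 2 := mul_le_mul_of_nonneg_left h9 (by positivity)

/-- `q_all`, `q_scale`: the sum is at most `4 * p ^ (m - 1 - a) * ∑ f ^ 2`, and
`Num (Unt p m δ) (RQ p m δ) (a + 1) = Nq p m δ (a + 1) ≥ (p - 2) ^ (m - 1 - a)` with
`m - 1 - a ≥ 1` and `p ≤ (p - 2) ^ 2`. -/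
theorem q_quasi {κ : Type*} [Fintype κ] [DecidableEq κ] {p m : ℕ} [Fact p.Prime] (hp : 3 < p)
    (δ : ZMod p) (hδ : δ ≠ 0) (t : ℕ) (ht : 2 * t < m + 1) :
    Quasi (κ := κ) (okQ (m := m) δ) (RQ p m δ) t (4 * p / ((p : ℝ) - 2) ^ 2) := by
  intro I x y hx hy hxy hI z hz f hf
  have hp2 : p ≠ 2 := by omega
  have h1 := q_all hp2 δ hδ I (by omega) z hz x f hf
  have h2 := q_scale hp2 δ I z x y f
  rw [q7b_Num hp δ hδ (I.card + 1) (by omega)]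
  have h3 : (1 : ℝ) < p := by
    have : 1 < p := by omega
    exact_mod_cast this
  have h4 : (0 : ℝ) < (p : ℝ) - 1 := by linarith
  have hF : 0 ≤ ∑ s ∈ lk (okQ δ) I z x, f s ^ 2 := Finset.sum_nonneg fun s _ => sq_nonneg _
  have h5 := h2.trans (mul_le_mul_of_nonneg_left h1 (by norm_num : (0 : ℝ) ≤ 2))
  have h6 := Nq_lower hp2 δ hδ (I.card + 1) (by omega : I.card + 1 < m)
  have h7 := mul_le_mul_of_nonneg_right (q7b_num hp (Fact.out : p.Prime) (by omega) h6) hF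
  refine le_trans ?_ h7
  refine le_of_mul_le_mul_left ?_ h4
  refine h5.trans (le_of_eq ?_)
  ring

end Pool.Agent.Lib.SDF2
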