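import Pool.Agent.Lib.SDF2.A6
import Pool.Agent.Lib.SDF2.Q7
import Pool.Agent.Lib.SDF.Main

/-!
Row M1: the design with its test function, and the final statement.
-/

set_option autoImplicit false

namespace Pool.Agent.Lib.SDF2

open Finset
open Pool.Agent.Lib.MP_678664_lc_h67 (Cons vert vert_inj rowGraph rowGraph_adj colSet colSet_inj
  card_colSet rowGraph_cliqueFree)
open Pool.Agent.Lib.SDF (degLE Junta CliqueSDP clique_factor core corr av av_congr av_sub
  av_mul_left av_mul_right av_pattern av_finset_sum)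

private theorem small_eta (k t p : ℕ) (hp : 4 ^ (k + 2) * t + 5 ≤ p) :
    (4 : ℝ) ^ k * (t * (4 * p / ((p : ℝ) - 2) ^ 2)) ≤ 1 := by
  have hp5 : (5 : ℝ) ≤ p := by
    have : 5 ≤ p := by omega
    exact_mod_cast this
  have h1 : (4 : ℝ) ^ k * 16 * t ≤ p := by
    have h : 4 ^ (k + 2) * t ≤ p := by omega
    have h' : ((4 ^ (k + 2) * t : ℕ) : ℝ) ≤ p := by exact_mod_cast h
    push_cast at h'
    rw [pow_add] at h'
    linarith
  have h2 : (0 : ℝ) < ((p : ℝ) - 2) ^ 2 := by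
    have : (0 : ℝ) < (p : ℝ) - 2 := by linarith
    positivity
  have h3 : (4 : ℝ) ^ k * (t * (4 * p / ((p : ℝ) - 2) ^ 2))
      = (4 : ℝ) ^ k * t * (4 * p) / ((p : ℝ) - 2) ^ 2 := by
    ring
  rw [h3, div_le_one h2]
  have h4 : (4 : ℝ) ^ k * t * (4 * p) ≤ p / 4 * p := by
    have h5 : (4 : ℝ) ^ k * t * 4 ≤ p / 4 := by linarith
    calc (4 : ℝ) ^ k * t * (4 * p) = ((4 : ℝ) ^ k * t * 4) * p := by ring
      _ ≤ p / 4 * p := mul_le_mul_of_nonneg_right h5 (by linarith)
  nlinarith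

/-- `exists_design_psd` of `Pool/Agent/Lib/SDF/DesignEx.lean` for `2 * t < u`. -/
theorem exists_design_psd (k u t : ℕ) (hu : 3 ≤ u) (ht : 2 * t < u) :
    ∃ (S : Type) (_ : Fintype S) (_ : DecidableEq S) (_ : Nonempty S)
      (ok : Fin k → Fin k → S → S → Prop) (W : (Fin k → S) → ℝ) (c : ℝ),
      1 ≤ c ∧ (∀ z, |W z| ≤ c) ∧
      (∀ v w s t, ok v w s t → ok w v t s) ∧
      (∀ (z : Fin k → S) (U : Finset (Fin k)), U.card = u → ¬ Cons ok U z) ∧
      (∑ z, W z = Fintype.card (Fin k → S)) ∧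
      (∀ (T : Finset (Fin k)) (F : (Fin k → S) → ℝ), T.card < u →
        (∀ z z' : Fin k → S, (∀ v ∈ T, z v = z' v) → F z = F z') →
        ((∀ z, 0 ≤ F z) → 0 ≤ ∑ z, W z * F z) ∧
        ((∀ z, Cons ok T z → F z = 1) → ∑ z, W z * F z = Fintype.card (Fin k → S))) ∧
      ∀ g ∈ degLE (Fin k) S t, 0 ≤ ∑ z, W z * g z ^ 2 := by
  obtain ⟨m, rfl⟩ : ∃ m, u = m + 1 := ⟨u - 1, by omega⟩
  obtain ⟨p, hpk, hp⟩ := Nat.exists_infinite_primes (4 ^ (k + 2) * t + 5)
  have : Fact p.Prime := ⟨hp⟩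
  have hp3 : 3 < p := by omega
  have hp2 : p ≠ 2 := by omega
  have hchar : ringChar (ZMod p) ≠ 2 := by
    rw [ZMod.ringChar_zmod_n]
    exact hp2
  obtain ⟨δ, hδ⟩ := FiniteField.exists_nonsquare hchar
  have hδ0 : δ ≠ 0 := by
    rintro rfl
    exact hδ (IsSquare.zero)
  have hext := q_ext (κ := Fin k) (m := m) hp3 δ hδ0
  have hRpos : ∀ i, i < m + 1 → 0 < RQ p m δ i := q_pos hp3 δ hδ0
  have hR : ∀ i, 0 ≤ RQ p m δ i := fun i => by
    unfold RQ
    exact Finset.prod_nonneg fun j _ => div_nonneg (Nat.cast_nonneg _) (Nat.cast_nonneg _)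
  have hR0 : RQ p m δ 0 = 1 := by
    unfold RQ
    simp
  have hsymm : ∀ (v w : Fin k) (s t : Unt p m δ), okQ δ v w s t → okQ δ w v t s := by
    intro v w s t h
    unfold okQ at h ⊢
    rw [B_comm]
    exact h
  have hne : Nonempty (Unt p m δ) := by
    have hpos : 0 < Nq p m δ 0 :=
      lt_of_lt_of_le (pow_pos (by omega) _) (Nq_lower hp2 δ hδ0 0 (by omega))
    obtain ⟨h1, _⟩ := Nat.card_pos_iff.1 hpos
    obtain ⟨x⟩ := h1
    exact ⟨⟨x.1, x.2.1⟩⟩
  obtain ⟨B, hB⟩ := exists_bound (κ := Fin k) (okQ (m := m) δ) (RQ p m δ) (m + 1)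
  refine ⟨Unt p m δ, inferInstance, inferInstance, hne, okQ δ,
    fun z => ∑ J, pureComp (okQ (m := m) δ) (RQ p m δ) (m + 1) J z, max 1 B, le_max_left _ _,
    fun z => (hB z).trans (le_max_right _ _), hsymm, ?_, ?_, ?_, ?_⟩
  · intro z U hU
    exact q_not_cons δ hδ z U hU
  · exact sum_test (okQ (m := m) δ) hsymm (RQ p m δ) (m + 1) hext (by omega) hR0
  · intro T F hT hF
    have h1 := sum_test_mul (okQ (m := m) δ) hsymm (RQ p m δ) (m + 1) hext T hT F hF
    have h2 := sum_test_mul (okQ (m := m) δ) hsymm (RQ p m δ) (m + 1) hext T hT (fun _ => 1)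
      (fun _ _ _ => rfl)
    have h3 := sum_test (okQ (m := m) δ) hsymm (RQ p m δ) (m + 1) hext (by omega) hR0
    simp only [one_mul] at h2
    have h4 : ∑ z, (∑ J, pureComp (okQ (m := m) δ) (RQ p m δ) (m + 1) J z) * F z
        = ∑ z, F z * rho (okQ (m := m) δ) (RQ p m δ) T z := by
      rw [← h1]
      exact Finset.sum_congr rfl fun z _ => mul_comm _ _
    refine ⟨fun hF0 => ?_, fun hF1 => ?_⟩
    · rw [h4]
      exact Finset.sum_nonneg fun z _ => mul_nonneg (hF0 z) (rho_nonneg _ _ hR _ _)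
    · rw [h4, ← h3, h2]
      refine Finset.sum_congr rfl fun z _ => ?_
      by_cases hc : Cons (okQ (m := m) δ) T z
      · rw [hF1 z hc, one_mul]
      · have : rho (okQ (m := m) δ) (RQ p m δ) T z = 0 := by
          unfold rho
          rw [if_neg hc]
        rw [this, mul_zero]
  · intro g hg
    have hη : (0 : ℝ) ≤ 4 * p / ((p : ℝ) - 2) ^ 2 := by positivity
    have hsmall : (4 : ℝ) ^ Fintype.card (Fin k) * (t * (4 * p / ((p : ℝ) - 2) ^ 2)) ≤ 1 := by
      rw [Fintype.card_fin]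
      exact small_eta k t p hpk
    exact psd (okQ (m := m) δ) hsymm (RQ p m δ) (m + 1) t hext hR hRpos ht _ hη
      (q_quasi hp3 δ hδ0 t ht) hsmall g hg

/-- The lower bound with free parameters. -/
theorem lower_param (k u : ℕ) (hu : 3 ≤ u) (ε : ℝ) (hε : 0 < ε) (hε1 : ε ≤ 1) :
    ∃ c0 K1 δ : ℝ, 0 < c0 ∧ 0 < K1 ∧ 0 < δ ∧
      ∀ (n r : ℕ), Nonempty (CliqueSDP n k u ε r) →
        ∀ N s : ℕ, 0 < N → k * N ≤ n → K1 * (r + 1) < (1 + δ) ^ (2 * s) →
          c0 < (r + 1) * ((k * s : ℝ) / N) ^ ((u - 1) / 2 + 1) := by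
  classical
  obtain ⟨S, _, _, _, ok, W, c, hc, hWc, hsymm, hno, hW1, hloc, hpsd⟩ :=
    exists_design_psd k u ((u - 1) / 2) hu (by omega)
  have hc0 : 0 < c := by linarith
  refine ⟨ε ^ 2 / (320 * c ^ 2 * (1 + 1) ^ 2), 256 * c ^ 3 * (1 + 1) ^ 3 / ε ^ 3,
    ε / (16 * c * (1 + 1)), by positivity, by positivity, by positivity, ?_⟩
  rintro n r ⟨P⟩ N s hN hkn hs
  have : Nonempty (Fin N) := ⟨⟨0, hN⟩⟩
  obtain ⟨A, B, hA, hB, hAB⟩ := clique_factor P
  have hfree : ∀ x : Fin k → Fin N → S, (rowGraph hkn ok hsymm x).CliqueFree u := fun x =>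
    rowGraph_cliqueFree hkn ok hsymm x u hu hno
  have hfin : ∀ (G : SimpleGraph (Fin n)) (T : Finset (Fin n)),
      ∑ᶠ H ∈ Set.Iic G, P.wt T H = ∑ H, P.wt T H * if H ≤ G then 1 else 0 := by
    intro G T
    rw [finsum_mem_eq_finite_toFinset_sum _ (Set.toFinite _)]
    simp only [mul_ite, mul_one, mul_zero]
    rw [← Finset.sum_filter]
    refine Finset.sum_congr ?_ fun _ _ => rfl
    ext H
    simp
  have hval0 : ∀ (G : SimpleGraph (Fin n)) (T : Finset (Fin n)),
      0 ≤ ∑ᶠ H ∈ Set.Iic G, P.wt T H := by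
    intro G T
    rw [hfin]
    exact Finset.sum_nonneg fun H _ => mul_nonneg (P.wt_nonneg T H) (by split_ifs <;> norm_num)
  have hcard : (Fintype.card (Fin r ⊕ Unit) : ℝ) = r + 1 := by
    simp
  have hmain := core (κ := Fin k) (α := Fin N) (ι := Fin r ⊕ Unit) W
    (fun x y => 1 - ε - ∑ᶠ H ∈ Set.Iic (rowGraph hkn ok hsymm (fun v i => x (v, i))),
      P.wt (colSet hkn y) H)
    c 1 ε ((u - 1) / 2) hc zero_le_one hε hε1 hWc hpsd
    (fun x y => by
      have := hval0 (rowGraph hkn ok hsymm (fun v i => x (v, i))) (colSet hkn y)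
      linarith)
    (fun y => by
      have h1 : ∀ x : Fin k × Fin N → S, W (fun v => x (v, y v)) * (1 - ε -
          ∑ᶠ H ∈ Set.Iic (rowGraph hkn ok hsymm (fun v i => x (v, i))), P.wt (colSet hkn y) H)
          = W (fun v => x (v, y v)) * (1 - ε) - ∑ H, P.wt (colSet hkn y) H *
            (W (fun v => x (v, y v)) *
              if H ≤ rowGraph hkn ok hsymm (fun v i => x (v, i)) then 1 else 0) := by
        intro x
        rw [hfin, mul_sub, Finset.mul_sum]
        congr 1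
        exact Finset.sum_congr rfl fun H _ => by ring
      rw [av_congr h1, av_sub, av_mul_right, av_pattern (fun z => W z) y, av_finset_sum]
      have h2 : av (fun z => W z) = 1 := by
        unfold av
        rw [hW1, div_self]
        exact_mod_cast Fintype.card_ne_zero
      rw [h2, one_mul]
      have h3 : ∀ H : SimpleGraph (Fin n), P.wt (colSet hkn y) H *
            (if H ≤ SimpleGraph.fromRel (fun a b => a ∈ colSet hkn y ∧ b ∈ colSet hkn y)
              then (1 : ℝ) else 0)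
          ≤ av (fun x : Fin k × Fin N → S => P.wt (colSet hkn y) H *
            (W (fun v => x (v, y v)) *
              if H ≤ rowGraph hkn ok hsymm (fun v i => x (v, i)) then 1 else 0)) := by
        intro H
        rw [av_mul_left]
        by_cases hH : H.support.ncard < u
        · obtain ⟨h4, h5⟩ := corr hkn ok hsymm W u hloc H hH y
          refine mul_le_mul_of_nonneg_left ?_ (P.wt_nonneg _ _)
          split_ifs with hle
          · rw [h5]
            intro a b hab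
            have := hle hab
            rw [SimpleGraph.fromRel_adj] at this
            rcases this.2 with h6 | h6
            · exact h6
            · exact h6.symm
          · exact h4
        · rw [P.wt_small _ H (not_lt.1 hH), zero_mul, zero_mul]
      have h6 := Finset.sum_le_sum fun H (_ : H ∈ Finset.univ) => h3 H
      have h7 := P.complete (colSet hkn y) (card_colSet hkn y)
        (SimpleGraph.fromRel (fun a b => a ∈ colSet hkn y ∧ b ∈ colSet hkn y)) (by
          intro a ha b hb hab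
          rw [SimpleGraph.fromRel_adj]
          exact ⟨hab, Or.inl ⟨ha, hb⟩⟩)
      rw [P.point_val _ (card_colSet hkn y), hfin] at h7
      linarith)
    (fun x => A (rowGraph hkn ok hsymm (fun v i => x (v, i)))) (fun y => B (colSet hkn y))
    (fun x => hA _ (hfree _)) (fun y => hB _ (card_colSet hkn y))
    (fun x y => hAB _ (hfree _) _ (card_colSet hkn y)) s (by rw [hcard]; exact hs)
  rw [hcard] at hmain
  simpa using hmain

theorem main :
    ∀ k u : ℕ, 3 ≤ u → u ≤ k →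
      (∀ ε : ℝ, 0 < ε → ∃ c : ℝ, 0 < c ∧ ∀ n r : ℕ, 2 ≤ n →
        Nonempty (CliqueSDP n k u ε r) →
          c * (n / Real.log n) ^ ((u + 1) / 2) ≤ r + 1) ∧
      (∀ ε : ℝ, 0 < ε → ∃ c : ℝ, 0 < c ∧ ∀ n r : ℕ, 2 ≤ n →
        (∃ P : CliqueSDP n k u ε r, P.IsLinear) →
          c * (n / Real.log n ^ 3) ^ u ≤ r + 1) ∧
      ∀ n : ℕ, ∃ P : CliqueSDP n k u (1 - 2 / u) (n.choose u), P.IsLinear := by
  intro k u hu huk
  obtain ⟨_, h2, h3⟩ := Pool.Agent.Lib.SDF.main k u hu huk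
  refine ⟨fun ε hε => ?_, h2, h3⟩
  obtain ⟨c0, K1, δ, hc0, hK1, hδ, h⟩ := lower_param k u hu (min ε 1)
    (lt_min hε one_pos) (min_le_right _ _)
  obtain ⟨c, hc, hc2⟩ := Pool.Agent.Lib.SDF.asym k ((u - 1) / 2 + 1) (by omega) (by omega) c0 K1 δ
    hc0 hK1 hδ
  refine ⟨c, hc, fun n r hn hF => ?_⟩
  have he : (u + 1) / 2 = (u - 1) / 2 + 1 := by omega
  rw [he]
  obtain ⟨F⟩ := hF
  exact hc2 n r hn (h n r (Pool.Agent.Lib.SDF.clique_sdp_mono (min_le_left _ _) F))

end Pool.Agent.Lib.SDF2
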