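import Pool.Agent.Lib.SDF2.QDefs

/-!
Row Q1: there are no `m + 1` orthogonal unit vectors.
-/

set_option autoImplicit false

namespace Pool.Agent.Lib.SDF2

open Finset
open Pool.Agent.Lib.MP_678664_lc_h67 (Cons)

/-- The diagonal of the form. -/
private def dg (m : ℕ) {p : ℕ} (δ : ZMod p) : Fin (m + 1) → ZMod p :=
  fun i => if i = Fin.last m then δ else 1

private theorem B_eq_sum {p m : ℕ} (δ : ZMod p) (x y : Fin (m + 1) → ZMod p) :
    B δ x y = ∑ i, x i * dg m δ i * y i := by
  rw [B, Fin.sum_univ_castSucc]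
  congr 1
  · refine Finset.sum_congr rfl fun i _ => ?_
    rw [dg, if_neg (Fin.castSucc_lt_last i).ne, mul_one]
  · rw [dg, if_pos rfl]
    ring

/-- Let `M` be the matrix with the rows `z (e i)`, `e : Fin (m + 1) ≃ U`, and `D` the diagonal
matrix of the form: `M * D * Mᵀ = 1`, so `det M ^ 2 * δ = 1` and `δ = (det M)⁻¹ ^ 2`. -/
theorem q_not_cons {κ : Type*} [DecidableEq κ] {p m : ℕ} [Fact p.Prime] (δ : ZMod p)
    (hδ : ¬ IsSquare δ) (z : κ → Unt p m δ) (U : Finset κ) (hU : U.card = m + 1) :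
    ¬ Cons (okQ δ) U z := by
  intro hC
  let e : Fin (m + 1) ≃ U := (U.equivFinOfCardEq hU).symm
  let M : Matrix (Fin (m + 1)) (Fin (m + 1)) (ZMod p) := fun i j => (z (e i)).1 j
  have h1 : M * Matrix.diagonal (dg m δ) * M.transpose = 1 := by
    ext i j
    have h2 : (M * Matrix.diagonal (dg m δ) * M.transpose) i j = B δ (z (e i)).1 (z (e j)).1 := by
      rw [B_eq_sum, Matrix.mul_apply]
      refine Finset.sum_congr rfl fun k _ => ?_
      rw [Matrix.mul_diagonal, Matrix.transpose_apply]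
    rw [h2]
    by_cases hij : i = j
    · subst hij
      rw [Matrix.one_apply_eq]
      exact (z (e i)).2
    · rw [Matrix.one_apply_ne hij]
      refine hC (e i) (e i).2 (e j) (e j).2 fun h => hij ?_
      exact e.injective (Subtype.ext h)
  have h2 := congrArg Matrix.det h1
  rw [Matrix.det_mul, Matrix.det_mul, Matrix.det_transpose, Matrix.det_diagonal,
    Matrix.det_one] at h2
  have h3 : ∏ i, dg m δ i = δ := by
    rw [Fin.prod_univ_castSucc]
    have h4 : ∏ i : Fin m, dg m δ i.castSucc = 1 :=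
      Finset.prod_eq_one fun i _ => by rw [dg, if_neg (Fin.castSucc_lt_last i).ne]
    rw [h4, dg, if_pos rfl, one_mul]
  rw [h3] at h2
  have h5 : M.det ≠ 0 := by
    intro h
    rw [h] at h2
    simp at h2
  apply hδ
  refine ⟨M.det⁻¹, ?_⟩
  field_simp
  linear_combination h2

end Pool.Agent.Lib.SDF2
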