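import Pool.Agent.Lib.SDF2.QDefs

/-!
Row Q2: the isometries act transitively on the orthonormal families.
-/

set_option autoImplicit false

namespace Pool.Agent.Lib.SDF2

open Finset

section
variable {p m : ℕ}

private theorem B_smul_right_h48 (δ c : ZMod p) (x y : Fin (m + 1) → ZMod p) :
    B δ x (c • y) = c * B δ x y := by
  rw [B_comm, B_smul, B_comm]

private theorem B_add_right_h48 (δ : ZMod p) (x y z : Fin (m + 1) → ZMod p) :
    B δ x (y + z) = B δ x y + B δ x z := by
  rw [B_comm, B_add, B_comm δ y, B_comm δ z]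

private theorem B_neg_h48 (δ : ZMod p) (x y : Fin (m + 1) → ZMod p) :
    B δ (-x) y = - B δ x y := by
  rw [← neg_one_smul (ZMod p) x, B_smul, neg_one_mul]

private theorem B_sub_h48 (δ : ZMod p) (x y z : Fin (m + 1) → ZMod p) :
    B δ (x - y) z = B δ x z - B δ y z := by
  rw [sub_eq_add_neg, B_add, B_neg_h48, ← sub_eq_add_neg]

private theorem B_sub_right_h48 (δ : ZMod p) (x y z : Fin (m + 1) → ZMod p) :
    B δ x (y - z) = B δ x y - B δ x z := by
  rw [B_comm, B_sub_h48, B_comm δ y, B_comm δ z]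

/-- The functional `t ↦ 2 * B t n / B n n`. -/
private def fun_h48 (δ : ZMod p) (n : Fin (m + 1) → ZMod p) [Fact p.Prime] :
    Module.Dual (ZMod p) (Fin (m + 1) → ZMod p) where
  toFun t := 2 * B δ t n / B δ n n
  map_add' v w := by rw [B_add, mul_add, add_div]
  map_smul' c v := by
    rw [B_smul, RingHom.id_apply, smul_eq_mul]; ring

private theorem exists_refl_h48 [Fact p.Prime] (δ : ZMod p) (n : Fin (m + 1) → ZMod p)
    (hn : B δ n n ≠ 0) :
    ∃ g : (Fin (m + 1) → ZMod p) ≃ₗ[ZMod p] (Fin (m + 1) → ZMod p),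
      (∀ v w, B δ (g v) (g w) = B δ v w) ∧ ∀ t, g t = t - (2 * B δ t n / B δ n n) • n := by
  have h : fun_h48 δ n n = 2 := by
    change 2 * B δ n n / B δ n n = 2
    exact mul_div_cancel_right₀ 2 hn
  refine ⟨Module.reflection h, ?_, ?_⟩
  · intro v w
    rw [Module.reflection_apply, Module.reflection_apply]
    change B δ (v - (2 * B δ v n / B δ n n) • n) (w - (2 * B δ w n / B δ n n) • n) = B δ v w
    rw [B_sub_h48, B_sub_right_h48, B_sub_right_h48, B_smul, B_smul, B_smul_right_h48,
      B_smul_right_h48, B_comm δ n w]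
    field_simp
    ring
  · intro t
    rw [Module.reflection_apply]
    rfl

private theorem exists_move_h48 [Fact p.Prime] (h2 : (2 : ZMod p) ≠ 0) (δ : ZMod p)
    (a b : Fin (m + 1) → ZMod p) (ha : B δ a a = 1) (hb : B δ b b = 1) :
    ∃ g : (Fin (m + 1) → ZMod p) ≃ₗ[ZMod p] (Fin (m + 1) → ZMod p),
      (∀ v w, B δ (g v) (g w) = B δ v w) ∧ g a = b ∧
        ∀ t, B δ t a = 0 → B δ t b = 0 → g t = t := by
  by_cases hab : B δ a b = 1
  · -- reflection in `a + b`, then in `b`
    have hn : B δ (a + b) (a + b) = 2 * 2 := by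
      rw [B_add, B_add_right_h48, B_add_right_h48, B_comm δ b a, ha, hb, hab]; ring
    obtain ⟨g₁, h₁, h₁'⟩ := exists_refl_h48 δ (a + b) (by rw [hn]; exact mul_ne_zero h2 h2)
    obtain ⟨g₂, h₂, h₂'⟩ := exists_refl_h48 δ b (by rw [hb]; exact one_ne_zero)
    refine ⟨g₁.trans g₂, fun v w => ?_, ?_, fun t hta htb => ?_⟩
    · rw [LinearEquiv.trans_apply, LinearEquiv.trans_apply, h₂, h₁]
    · have e1 : g₁ a = -b := by
        rw [h₁', hn, B_add_right_h48, ha, hab,
          show (2 * (1 + 1) / (2 * 2) : ZMod p) = 1 by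
            rw [one_add_one_eq_two]; exact div_self (mul_ne_zero h2 h2), one_smul]
        abel
      rw [LinearEquiv.trans_apply, e1, h₂', B_neg_h48, hb, div_one, mul_neg, mul_one, neg_smul,
        sub_neg_eq_add, two_smul]
      abel
    · have e1 : g₁ t = t := by
        rw [h₁', B_add_right_h48, hta, htb, add_zero, mul_zero, zero_div, zero_smul, sub_zero]
      rw [LinearEquiv.trans_apply, e1, h₂', htb, mul_zero, zero_div, zero_smul, sub_zero]
  · -- reflection in `a - b`
    have h1 : (1 : ZMod p) - B δ a b ≠ 0 := sub_ne_zero.2 (Ne.symm hab)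
    have hn : B δ (a - b) (a - b) = 2 * (1 - B δ a b) := by
      rw [B_sub_h48, B_sub_right_h48, B_sub_right_h48, B_comm δ b a, ha, hb]; ring
    obtain ⟨g, hg, hg'⟩ := exists_refl_h48 δ (a - b) (by rw [hn]; exact mul_ne_zero h2 h1)
    refine ⟨g, hg, ?_, fun t hta htb => ?_⟩
    · rw [hg', hn, B_sub_right_h48, ha, div_self (mul_ne_zero h2 h1), one_smul, sub_sub_cancel]
    · rw [hg', B_sub_right_h48, hta, htb, sub_zero, mul_zero, zero_div, zero_smul, sub_zero]

end

/-- Induction on `s`: for `insert v s` let `g` be given for `s`, `a = g (x v)`, `b = y v`.  If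
`B a b ≠ 1` compose with the reflection `t ↦ t - (2 * B t n / B n n) • n`, `n = a - b`,
`B n n = 2 - 2 * B a b ≠ 0`, which maps `a` to `b`; if `B a b = 1` compose with the reflection in
`n = a + b`, `B n n = 4`, which maps `a` to `- b`, and then with the reflection in `b`.  All these
reflections fix the `y w`, `w ∈ s`, which are orthogonal to `a` and `b`.  A reflection is an
involution (this gives the equivalence) and an isometry. -/
theorem exists_isometry {ι : Type*} [DecidableEq ι] {p m : ℕ} [Fact p.Prime] (hp : p ≠ 2)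
    (δ : ZMod p) (x y : ι → Fin (m + 1) → ZMod p) (s : Finset ι)
    (hx : ∀ i ∈ s, B δ (x i) (x i) = 1) (hy : ∀ i ∈ s, B δ (y i) (y i) = 1)
    (hx' : ∀ i ∈ s, ∀ j ∈ s, i ≠ j → B δ (x i) (x j) = 0)
    (hy' : ∀ i ∈ s, ∀ j ∈ s, i ≠ j → B δ (y i) (y j) = 0) :
    ∃ g : (Fin (m + 1) → ZMod p) ≃ₗ[ZMod p] (Fin (m + 1) → ZMod p),
      (∀ v w, B δ (g v) (g w) = B δ v w) ∧ ∀ i ∈ s, g (x i) = y i := by
  have h2 : (2 : ZMod p) ≠ 0 := by
    intro h
    have h' : ((2 : ℕ) : ZMod p) = 0 := by exact_mod_cast h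
    rw [ZMod.natCast_eq_zero_iff] at h'
    exact hp ((Nat.prime_dvd_prime_iff_eq (Fact.out : p.Prime) Nat.prime_two).1 h')
  induction s using Finset.induction_on with
  | empty => exact ⟨LinearEquiv.refl _ _, fun v w => rfl, fun i hi => absurd hi (notMem_empty i)⟩
  | insert v s hv ih =>
    obtain ⟨g, hg, hgs⟩ := ih (fun i hi => hx i (mem_insert_of_mem hi))
      (fun i hi => hy i (mem_insert_of_mem hi))
      (fun i hi j hj => hx' i (mem_insert_of_mem hi) j (mem_insert_of_mem hj))
      (fun i hi j hj => hy' i (mem_insert_of_mem hi) j (mem_insert_of_mem hj))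
    obtain ⟨h, hh, hab, hfix⟩ := exists_move_h48 h2 δ (g (x v)) (y v)
      (by rw [hg]; exact hx v (mem_insert_self v s)) (hy v (mem_insert_self v s))
    refine ⟨g.trans h, fun a b => by
      rw [LinearEquiv.trans_apply, LinearEquiv.trans_apply, hh, hg], fun i hi => ?_⟩
    rw [LinearEquiv.trans_apply]
    rcases mem_insert.1 hi with rfl | hi'
    · exact hab
    · have hne : i ≠ v := fun e => hv (e ▸ hi')
      rw [hgs i hi']
      refine hfix _ ?_ (hy' i hi v (mem_insert_self v s) hne)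
      rw [← hgs i hi', hg]
      exact hx' i hi v (mem_insert_self v s) hne

end Pool.Agent.Lib.SDF2
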