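import Pool.Agent.Lib.SDF2.QDefs

/-!
Row Q5: numbers of the solutions of linear systems.
-/

set_option autoImplicit false

namespace Pool.Agent.Lib.SDF2

open Finset
open Pool.Agent.Lib.MP_678664_lc_h67 (Cons)

/-- The form is nondegenerate. -/
theorem B_nondeg {p m : ℕ} [Fact p.Prime] (δ : ZMod p) (hδ : δ ≠ 0)
    (n : Fin (m + 1) → ZMod p) (hn : n ≠ 0) : ∃ t, B δ t n ≠ 0 := by
  classical
  obtain ⟨i, hi⟩ := Function.ne_iff.mp hn
  rcases Fin.eq_castSucc_or_eq_last i with ⟨j, rfl⟩ | rfl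
  · refine ⟨Pi.single j.castSucc 1, ?_⟩
    unfold B
    have h1 : (Pi.single j.castSucc 1 : Fin (m + 1) → ZMod p) (Fin.last m) = 0 := by
      rw [Pi.single_apply, if_neg]
      exact (Fin.castSucc_lt_last j).ne'
    rw [h1, zero_mul, mul_zero, add_zero, Finset.sum_eq_single j]
    · rw [Pi.single_eq_same, one_mul]
      exact hi
    · intro b _ hb
      rw [Pi.single_apply, if_neg, zero_mul]
      intro h
      exact hb (Fin.castSucc_injective m h)
    · intro h
      exact absurd (Finset.mem_univ j) h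
  · refine ⟨Pi.single (Fin.last m) 1, ?_⟩
    unfold B
    rw [Finset.sum_eq_zero, zero_add, Pi.single_eq_same, one_mul]
    · exact mul_ne_zero hδ hi
    · intro b _
      rw [Pi.single_apply, if_neg, zero_mul]
      exact (Fin.castSucc_lt_last b).ne

/-- If the linear map `v ↦ (B v (a i))_i` is surjective, its kernel has `p ^ (m + 1 - card ι)`
elements (`AddMonoidHom.card_fiber_eq_of_mem_range`, see `card_ext` in
`Pool/Agent/Lib/MP_678664_lc_h67/Design.lean`). -/
theorem card_ker {ι : Type*} [Fintype ι] {p m : ℕ} [Fact p.Prime] (δ : ZMod p)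
    (a : ι → Fin (m + 1) → ZMod p)
    (hs : ∀ c : ι → ZMod p, ∃ v, ∀ i, B δ v (a i) = c i) :
    Nat.card {v : Fin (m + 1) → ZMod p // ∀ i, B δ v (a i) = 0} * p ^ Fintype.card ι
      = p ^ (m + 1) := by
  classical
  let f : (Fin (m + 1) → ZMod p) →+ (ι → ZMod p) :=
    { toFun := fun v i => B δ v (a i)
      map_zero' := by funext i; simp [B]
      map_add' := by intro u v; funext i; exact B_add δ u v (a i) }
  have hf : ∀ c : ι → ZMod p, c ∈ Set.range f := by
    intro c
    obtain ⟨v, hv⟩ := hs c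
    exact ⟨v, funext hv⟩
  have hfib : ∀ c : ι → ZMod p, (Finset.univ.filter fun v => f v = c).card
      = (Finset.univ.filter fun v => f v = 0).card := fun c =>
    AddMonoidHom.card_fiber_eq_of_mem_range f (hf c) (hf 0)
  have h1 : Fintype.card (Fin (m + 1) → ZMod p)
      = ∑ c : ι → ZMod p, (Finset.univ.filter fun v => f v = c).card := by
    rw [← Finset.card_univ]
    exact Finset.card_eq_sum_card_fiberwise (fun v _ => Finset.mem_coe.2 (Finset.mem_univ _))
  have h2 : Fintype.card (Fin (m + 1) → ZMod p) = p ^ (m + 1) := by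
    rw [Fintype.card_fun, ZMod.card, Fintype.card_fin]
  rw [← h2, h1, Finset.sum_congr rfl (fun c _ => hfib c), Finset.sum_const, Finset.card_univ,
    smul_eq_mul, Fintype.card_fun, ZMod.card, mul_comm]
  congr 1
  rw [Nat.card_eq_fintype_card, Fintype.card_subtype]
  congr 1
  ext v
  simp only [Finset.mem_filter, Finset.mem_univ, true_and]
  constructor
  · intro h; funext i; exact h i
  · intro h i; exact congrFun h i

private theorem q5_B_zero {p m : ℕ} (δ : ZMod p) (y : Fin (m + 1) → ZMod p) : B δ 0 y = 0 := by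
  simp [B]

private theorem q5_B_sum {κ : Type*} {p m : ℕ} (δ : ZMod p) (I : Finset κ)
    (f : κ → Fin (m + 1) → ZMod p) (y : Fin (m + 1) → ZMod p) :
    B δ (∑ w ∈ I, f w) y = ∑ w ∈ I, B δ (f w) y := by
  classical
  induction I using Finset.induction_on with
  | empty => rw [Finset.sum_empty, Finset.sum_empty, q5_B_zero]
  | insert b s hb ih => rw [Finset.sum_insert hb, Finset.sum_insert hb, B_add, ih]

/-- the linear system in an orthonormal family, with an additional vector -/
private theorem q5_exists {κ : Type*} [DecidableEq κ] {p m : ℕ} [Fact p.Prime] (δ : ZMod p)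
    (I : Finset κ) (z : κ → Unt p m δ) (hz : Cons (okQ δ) I z)
    (x : Unt p m δ) (hx : ∀ w ∈ I, B δ x.1 (z w).1 = 0) (t : Fin (m + 1) → ZMod p)
    (l c0 : ZMod p) (c : κ → ZMod p) :
    ∃ v, B δ v x.1 = c0 ∧ (∀ w ∈ I, B δ v (z w).1 = c w) ∧
      ∀ n, B δ x.1 n = 0 → (∀ w ∈ I, B δ (z w).1 n = 0) → B δ v n = l * B δ t n := by
  refine ⟨l • t + (c0 - l * B δ t x.1) • x.1
    + ∑ w ∈ I, (c w - l * B δ t (z w).1) • (z w).1, ?_, ?_, ?_⟩
  · rw [B_add, B_add, B_smul, B_smul, x.2, q5_B_sum, Finset.sum_eq_zero]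
    · ring
    · intro w hw
      rw [B_smul, B_comm δ (z w).1 x.1, hx w hw, mul_zero]
  · intro w hw
    rw [B_add, B_add, B_smul, B_smul, hx w hw, q5_B_sum, Finset.sum_eq_single w]
    · rw [B_smul, (z w).2]
      ring
    · intro u hu huw
      rw [B_smul]
      have h1 : B δ (z u).1 (z w).1 = 0 := hz u hu w hw huw
      rw [h1, mul_zero]
    · intro h
      exact absurd hw h
  · intro n h1 h2
    rw [B_add, B_add, B_smul, B_smul, h1, q5_B_sum, Finset.sum_eq_zero]
    · ring
    · intro w hw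
      rw [B_smul, h2 w hw, mul_zero]

/-- The vectors orthogonal to `z w`, `w ∈ I`, and to `x`, where these vectors are orthonormal:
`p ^ (m - I.card)`. -/
theorem card_orth_one {κ : Type*} [DecidableEq κ] {p m : ℕ} [Fact p.Prime] (δ : ZMod p)
    (I : Finset κ) (hI : I.card + 1 ≤ m) (z : κ → Unt p m δ) (hz : Cons (okQ δ) I z)
    (x : Unt p m δ) (hx : ∀ w ∈ I, B δ x.1 (z w).1 = 0) :
    Nat.card {v : Fin (m + 1) → ZMod p // (∀ w ∈ I, B δ v (z w).1 = 0) ∧ B δ v x.1 = 0}
      = p ^ (m - I.card) := by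
  have hp : 0 < p := (Fact.out : p.Prime).pos
  let a : Option I → Fin (m + 1) → ZMod p := fun i => i.elim x.1 (fun w => (z w.1).1)
  have hs : ∀ c : Option I → ZMod p, ∃ v, ∀ i, B δ v (a i) = c i := by
    intro c
    obtain ⟨v, h1, h2, _⟩ := q5_exists δ I z hz x hx 0 0 (c none)
      (fun w => if h : w ∈ I then c (some ⟨w, h⟩) else 0)
    refine ⟨v, fun i => ?_⟩
    cases i with
    | none => exact h1
    | some w =>
      have h3 := h2 w.1 w.2
      rw [dif_pos w.2] at h3
      exact h3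
  have h1 := card_ker δ a hs
  rw [Fintype.card_option, Fintype.card_coe] at h1
  have h2 : Nat.card {v : Fin (m + 1) → ZMod p // ∀ i, B δ v (a i) = 0}
      = Nat.card {v : Fin (m + 1) → ZMod p // (∀ w ∈ I, B δ v (z w).1 = 0) ∧ B δ v x.1 = 0} := by
    refine Nat.card_congr (Equiv.subtypeEquivRight fun v => ?_)
    constructor
    · intro h
      exact ⟨fun w hw => h (some ⟨w, hw⟩), h none⟩
    · intro h i
      cases i with
      | none => exact h.2
      | some w => exact h.1 w.1 w.2
  rw [h2] at h1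
  have h3 : p ^ (m - I.card) * p ^ (I.card + 1) = p ^ (m + 1) := by
    rw [← pow_add]
    congr 1
    omega
  exact Nat.eq_of_mul_eq_mul_right (pow_pos hp (I.card + 1)) (h1.trans h3.symm)

/-- The vectors orthogonal to `z w`, `w ∈ I`, to `x` and to `x' ≠ x, - x`:
`p ^ (m - 1 - I.card)`.  Surjectivity in `card_ker`: `z w`, `x`, `x'` have the values
`(e_w, 0, 0)`, `(0, 1, c)`, `(0, c, 1)`, `c = B x x'`, which is enough if `c ^ 2 ≠ 1`; if
`c = 1` or `c = -1` take `n = x' - c • x ≠ 0`, which is orthogonal to all, and `t` with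
`B t n ≠ 0` instead of `x'`. -/
theorem card_orth_two {κ : Type*} [DecidableEq κ] {p m : ℕ} [Fact p.Prime] (δ : ZMod p)
    (hδ : δ ≠ 0) (I : Finset κ) (hI : I.card + 2 ≤ m) (z : κ → Unt p m δ)
    (hz : Cons (okQ δ) I z) (x x' : Unt p m δ) (hx : ∀ w ∈ I, B δ x.1 (z w).1 = 0)
    (hx' : ∀ w ∈ I, B δ x'.1 (z w).1 = 0) (hne : x'.1 ≠ x.1) (hne' : x'.1 ≠ - x.1) :
    Nat.card {v : Fin (m + 1) → ZMod p // (∀ w ∈ I, B δ v (z w).1 = 0) ∧ B δ v x.1 = 0 ∧
      B δ v x'.1 = 0} = p ^ (m - 1 - I.card) := by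
  have hp : 0 < p := (Fact.out : p.Prime).pos
  let a : Option (Option I) → Fin (m + 1) → ZMod p := fun i =>
    i.elim x'.1 (fun j => j.elim x.1 (fun w => (z w.1).1))
  set c := B δ x.1 x'.1 with hc
  set n : Fin (m + 1) → ZMod p := x'.1 + (-c) • x.1 with hn
  have hBn : ∀ v, B δ v n = B δ v x'.1 - c * B δ v x.1 := by
    intro v
    rw [hn, B_comm, B_add, B_smul, B_comm δ x'.1 v, B_comm δ x.1 v]
    ring
  have hn0 : n ≠ 0 := by
    intro h0
    have h1 : x'.1 = c • x.1 := by
      have h2 : x'.1 + (-c) • x.1 = 0 := h0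
      rw [neg_smul, ← sub_eq_add_neg, sub_eq_zero] at h2
      exact h2
    have h2 : c * c = 1 := by
      have h3 := x'.2
      rw [h1, B_smul, B_comm, B_smul, x.2, mul_one] at h3
      exact h3
    have h3 : (c - 1) * (c + 1) = 0 := by linear_combination h2
    rcases mul_eq_zero.mp h3 with h4 | h4
    · apply hne
      rw [h1, sub_eq_zero.mp h4, one_smul]
    · apply hne'
      rw [h1, eq_neg_of_add_eq_zero_left h4, neg_smul, one_smul]
  obtain ⟨t, ht⟩ := B_nondeg δ hδ n hn0
  have hs : ∀ d : Option (Option I) → ZMod p, ∃ v, ∀ i, B δ v (a i) = d i := by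
    intro d
    obtain ⟨v, h1, h2, h3⟩ := q5_exists δ I z hz x hx t
      ((d none - c * d (some none)) / B δ t n) (d (some none))
      (fun w => if h : w ∈ I then d (some (some ⟨w, h⟩)) else 0)
    have h4 := h3 n (by rw [hBn, x.2, ← hc]; ring) (fun w hw => by
      rw [hBn, B_comm, hx' w hw, B_comm, hx w hw]; ring)
    rw [div_mul_cancel₀ _ ht, hBn, h1] at h4
    refine ⟨v, fun i => ?_⟩
    match i with
    | none =>
      show B δ v x'.1 = d none
      linear_combination h4
    | some none => exact h1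
    | some (some w) =>
      have h5 := h2 w.1 w.2
      rw [dif_pos w.2] at h5
      exact h5
  have h1 := card_ker δ a hs
  rw [Fintype.card_option, Fintype.card_option, Fintype.card_coe] at h1
  have h2 : Nat.card {v : Fin (m + 1) → ZMod p // ∀ i, B δ v (a i) = 0}
      = Nat.card {v : Fin (m + 1) → ZMod p // (∀ w ∈ I, B δ v (z w).1 = 0) ∧ B δ v x.1 = 0 ∧
      B δ v x'.1 = 0} := by
    refine Nat.card_congr (Equiv.subtypeEquivRight fun v => ?_)
    constructor
    · intro h
      exact ⟨fun w hw => h (some (some ⟨w, hw⟩)), h (some none), h none⟩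
    · intro h i
      match i with
      | none => exact h.2.2
      | some none => exact h.2.1
      | some (some w) => exact h.1 w.1 w.2
  rw [h2] at h1
  have h3 : p ^ (m - 1 - I.card) * p ^ (I.card + 1 + 1) = p ^ (m + 1) := by
    rw [← pow_add]
    congr 1
    omega
  exact Nat.eq_of_mul_eq_mul_right (pow_pos hp (I.card + 1 + 1)) (h1.trans h3.symm)

end Pool.Agent.Lib.SDF2
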