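import Pool.Agent.Lib.SDF2.Defs

/-!
The quadratic design: unit vectors of the quadratic form `x 0 ^ 2 + ... + δ * x m ^ 2` in `m + 1`
variables; two values are compatible when they are orthogonal.
-/

set_option autoImplicit false

namespace Pool.Agent.Lib.SDF2

open Finset

section
variable {p m : ℕ}

/-- The bilinear form. -/
def B (δ : ZMod p) (x y : Fin (m + 1) → ZMod p) : ZMod p :=
  ∑ i : Fin m, x i.castSucc * y i.castSucc + δ * (x (Fin.last m) * y (Fin.last m))

/-- The unit vectors. -/
abbrev Unt (p m : ℕ) (δ : ZMod p) : Type := {x : Fin (m + 1) → ZMod p // B δ x x = 1}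

/-- Compatibility: orthogonality. -/
def okQ {κ : Type*} (δ : ZMod p) (_v _w : κ) (x y : Unt p m δ) : Prop := B δ x.1 y.1 = 0

/-- The number of the unit vectors with the first `a` coordinates `0`. -/
noncomputable def Nq (p m : ℕ) (δ : ZMod p) (a : ℕ) : ℕ :=
  Nat.card {x : Fin (m + 1) → ZMod p // B δ x x = 1 ∧ ∀ i : Fin m, (i : ℕ) < a → x i.castSucc = 0}

/-- The weights of the design. -/
noncomputable def RQ (p m : ℕ) (δ : ZMod p) (i : ℕ) : ℝ :=
  ∏ j ∈ Finset.range i, ((Nq p m δ 0 : ℝ) / Nq p m δ j)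

theorem B_comm (δ : ZMod p) (x y : Fin (m + 1) → ZMod p) : B δ x y = B δ y x := by
  simp only [B, mul_comm]

theorem B_add (δ : ZMod p) (x y z : Fin (m + 1) → ZMod p) :
    B δ (x + y) z = B δ x z + B δ y z := by
  simp only [B, Pi.add_apply, add_mul, mul_add, Finset.sum_add_distrib]; ring

theorem B_smul (δ c : ZMod p) (x y : Fin (m + 1) → ZMod p) : B δ (c • x) y = c * B δ x y := by
  simp only [B, Pi.smul_apply, smul_eq_mul, mul_add, Finset.mul_sum]
  congr 1
  · exact Finset.sum_congr rfl fun i _ => by ring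
  · ring

end

end Pool.Agent.Lib.SDF2
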